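import Pool.Agent.K4H40.NS.Spec

set_option autoImplicit false

namespace Pool.Agent.K4H40.NS

open MvPolynomial Module

theorem reg_comp {n : ℕ} {K : Type} [Field K] (θ g : R n K) (hθ : θ ∈ hs n K 1) (d : ℕ) :
    homogeneousComponent (d + 1) (θ * g) = θ * homogeneousComponent d g := by
  have h1 : θ * g = ∑ i ∈ Finset.range (g.totalDegree + 1), θ * homogeneousComponent i g := by
    rw [← Finset.mul_sum, sum_homogeneousComponent]
  have h2 : ∀ i, homogeneousComponent (d + 1) (θ * homogeneousComponent i g) =
      if d = i then θ * homogeneousComponent d g else 0 := by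
    intro i
    have h3 : θ * homogeneousComponent i g ∈ homogeneousSubmodule (Fin n) K (1 + i) := by
      have hθ' : θ.IsHomogeneous 1 := hθ
      exact hθ'.mul (homogeneousComponent_isHomogeneous i g)
    rw [homogeneousComponent_of_mem h3]
    by_cases hdi : d = i
    · subst hdi
      rw [if_pos (by ring), if_pos rfl]
    · rw [if_neg (by omega), if_neg hdi]
  conv_lhs => rw [h1]
  rw [map_sum]
  simp only [h2]
  rw [Finset.sum_ite_eq]
  split_ifs with h
  · rfl
  · rw [Finset.mem_range] at h
    rw [homogeneousComponent_eq_zero d g (by omega), mul_zero]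

theorem reg_aux {n k : ℕ} {K : Type} [Field K] {I : Ideal (R n K)} (s : Sys n k K I) :
    ∀ m : ℕ, ∀ f ∈ I, f ∈ Ideal.span (s.θ '' {j | j.val < m}) →
      ∃ g : Fin (2 * k + 1) → R n K, (∀ j, g j ∈ I) ∧ f = ∑ j, s.θ j * g j := by
  classical
  intro m
  induction m with
  | zero =>
    intro f _ hf
    have h0 : s.θ '' {j : Fin (2 * k + 1) | j.val < 0} = ∅ := by simp
    rw [h0, Ideal.span_empty] at hf
    have hf0 : f = 0 := by simpa using hf
    exact ⟨fun _ => 0, fun _ => I.zero_mem, by simp [hf0]⟩
  | succ m ih =>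
    intro f hfI hf
    by_cases hm : m < 2 * k + 1
    · let i : Fin (2 * k + 1) := ⟨m, hm⟩
      have hset : s.θ '' {j : Fin (2 * k + 1) | j.val < m + 1} =
          insert (s.θ i) (s.θ '' {j : Fin (2 * k + 1) | j.val < m}) := by
        ext x
        constructor
        · rintro ⟨j, hj, rfl⟩
          have hj' : j.val < m + 1 := hj
          rcases Nat.lt_succ_iff_lt_or_eq.1 hj' with h | h
          · exact Or.inr ⟨j, h, rfl⟩
          · left
            have : j = i := Fin.ext h
            rw [this]
        · rintro (rfl | ⟨j, hj, rfl⟩)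
          · exact ⟨i, Nat.lt_succ_self m, rfl⟩
          · exact ⟨j, Nat.lt_succ_of_lt hj, rfl⟩
      rw [hset, Ideal.mem_span_insert] at hf
      obtain ⟨a, z, hz, hfe⟩ := hf
      have hset2 : ({j : Fin (2 * k + 1) | j < i}) = {j : Fin (2 * k + 1) | j.val < m} := by
        ext j; exact Iff.rfl
      have ha : s.θ i * a ∈ I ⊔ Ideal.span (s.θ '' {j | j < i}) := by
        have e : s.θ i * a = f + (-z) := by rw [hfe]; ring
        rw [e, hset2]
        exact Submodule.add_mem_sup hfI (neg_mem hz)
      have ha2 := s.regular i a ha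
      rw [hset2] at ha2
      obtain ⟨h, hh, w, hw, hhw⟩ := Submodule.mem_sup.1 ha2
      have hf1 : f - h * s.θ i ∈ I := I.sub_mem hfI (I.mul_mem_right _ hh)
      have hf2 : f - h * s.θ i ∈ Ideal.span (s.θ '' {j : Fin (2 * k + 1) | j.val < m}) := by
        have e : f - h * s.θ i = w * s.θ i + z := by rw [hfe, ← hhw]; ring
        rw [e]
        exact Ideal.add_mem _ (Ideal.mul_mem_right _ _ hw) hz
      obtain ⟨g, hg, hge⟩ := ih _ hf1 hf2
      refine ⟨fun j => g j + if j = i then h else 0, fun j => ?_, ?_⟩
      · refine I.add_mem (hg j) ?_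
        split_ifs
        · exact hh
        · exact I.zero_mem
      · simp only [mul_add, Finset.sum_add_distrib, ← hge, mul_ite, mul_zero, Finset.sum_ite_eq',
          Finset.mem_univ, if_true]
        ring
    · have hset : s.θ '' {j : Fin (2 * k + 1) | j.val < m + 1} =
          s.θ '' {j : Fin (2 * k + 1) | j.val < m} := by
        congr 1
        ext j
        have := j.isLt
        constructor
        · intro _; show j.val < m; omega
        · intro _; show j.val < m + 1; omega
      rw [hset] at hf
      exact ih f hfI hf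

theorem reg : StREG := by
  intro n k K _ I s hI d f hf
  obtain ⟨⟨hfI, hfd⟩, hfT⟩ := hf
  have hfI' : f ∈ I := hfI
  have hspan : f ∈ Ideal.span (s.θ '' {j : Fin (2 * k + 1) | j.val < 2 * k + 1}) := by
    have hset : s.θ '' {j : Fin (2 * k + 1) | j.val < 2 * k + 1} = Set.range s.θ := by
      rw [← Set.image_univ]
      congr 1
      ext j
      have := j.isLt
      simp only [Set.mem_univ, iff_true]
      exact this
    rw [hset]
    have hle : s.Th d ≤ (Ideal.span (Set.range s.θ)).restrictScalars K := by
      refine Submodule.span_le.2 ?_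
      rintro _ ⟨i, g, _, rfl⟩
      exact Ideal.mul_mem_right _ _ (Ideal.subset_span ⟨i, rfl⟩)
    exact hle hfT
  obtain ⟨g, hg, hge⟩ := reg_aux s (2 * k + 1) f hfI' hspan
  have hfc : f = ∑ j, s.θ j * homogeneousComponent d (g j) := by
    have h1 : homogeneousComponent (d + 1) f = f := by
      rw [homogeneousComponent_of_mem hfd, if_pos rfl]
    rw [← h1]
    conv_lhs => rw [hge]
    rw [map_sum]
    exact Finset.sum_congr rfl fun j _ => reg_comp _ _ (s.θ_lin j) d
  rw [hfc]
  refine Submodule.sum_mem _ fun j _ => Submodule.subset_span ?_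
  exact ⟨s.θ j, s.θ_lin j, homogeneousComponent d (g j),
    ⟨hI _ (hg j) d, homogeneousComponent_isHomogeneous d (g j)⟩, rfl⟩

end Pool.Agent.K4H40.NS
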