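import Pool.Agent.K4H58.XK.Spec

open Finset

namespace Pool.Agent.K4H58.XK

/-- the mirror image, from the inequality for the converse relation -/
theorem pointwise'_of {ι α : Type} [Fintype ι] [DecidableEq ι] [Fintype α] [DecidableEq α] {k : ℕ}
    (X : ι → Finset α) (R : ι → ι → Prop) [DecidableRel R]
    (H : 2 * ∑ x : α, (univ.filter (fun p : ι × ι => R p.2 p.1 ∧ x ∈ X p.1 ∧ x ∈ X p.2)).card ≤
      2 * k ^ 2 +
      ∑ x : α, (univ.filter (fun p : ι × ι × ι => p.1 ≠ p.2.1 ∧ R p.2.2 p.1 ∧ R p.2.2 p.2.1 ∧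
        x ∈ X p.1 ∧ x ∈ X p.2.1 ∧ x ∈ X p.2.2)).card +
      (1 + k) * ∑ x : α, (univ.filter (fun p : ι × ι × ι => p.2.1 ≠ p.2.2 ∧ R p.2.1 p.1 ∧ R p.2.2 p.1 ∧
        x ∈ X p.1 ∧ x ∈ X p.2.1 ∧ x ∈ X p.2.2)).card) :
    2 * ∑ x : α, (univ.filter (fun p : ι × ι => R p.1 p.2 ∧ x ∈ X p.1 ∧ x ∈ X p.2)).card ≤
      2 * k ^ 2 +
      (1 + k) * ∑ x : α, (univ.filter (fun p : ι × ι × ι => p.1 ≠ p.2.1 ∧ R p.1 p.2.2 ∧ R p.2.1 p.2.2 ∧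
        x ∈ X p.1 ∧ x ∈ X p.2.1 ∧ x ∈ X p.2.2)).card +
      ∑ x : α, (univ.filter (fun p : ι × ι × ι => p.2.1 ≠ p.2.2 ∧ R p.1 p.2.1 ∧ R p.1 p.2.2 ∧
        x ∈ X p.1 ∧ x ∈ X p.2.1 ∧ x ∈ X p.2.2)).card := by
  have e1 : ∀ x : α, (univ.filter (fun p : ι × ι => R p.2 p.1 ∧ x ∈ X p.1 ∧ x ∈ X p.2)).card =
      (univ.filter (fun p : ι × ι => R p.1 p.2 ∧ x ∈ X p.1 ∧ x ∈ X p.2)).card := by
    intro x
    refine Finset.card_bij' (fun p _ => (p.2, p.1)) (fun p _ => (p.2, p.1)) ?_ ?_ ?_ ?_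
    · intro p hp; simp only [mem_filter, mem_univ, true_and] at hp ⊢; tauto
    · intro p hp; simp only [mem_filter, mem_univ, true_and] at hp ⊢; tauto
    · intro p _; rfl
    · intro p _; rfl
  have e2 : ∀ x : α, (univ.filter (fun p : ι × ι × ι => p.1 ≠ p.2.1 ∧ R p.2.2 p.1 ∧ R p.2.2 p.2.1 ∧
        x ∈ X p.1 ∧ x ∈ X p.2.1 ∧ x ∈ X p.2.2)).card =
      (univ.filter (fun p : ι × ι × ι => p.2.1 ≠ p.2.2 ∧ R p.1 p.2.1 ∧ R p.1 p.2.2 ∧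
        x ∈ X p.1 ∧ x ∈ X p.2.1 ∧ x ∈ X p.2.2)).card := by
    intro x
    refine Finset.card_bij' (fun p _ => (p.2.2, p.1, p.2.1)) (fun p _ => (p.2.1, p.2.2, p.1)) ?_ ?_ ?_ ?_
    · intro p hp; simp only [mem_filter, mem_univ, true_and] at hp ⊢; tauto
    · intro p hp; simp only [mem_filter, mem_univ, true_and] at hp ⊢; tauto
    · intro p _; rfl
    · intro p _; rfl
  have e3 : ∀ x : α, (univ.filter (fun p : ι × ι × ι => p.2.1 ≠ p.2.2 ∧ R p.2.1 p.1 ∧ R p.2.2 p.1 ∧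
        x ∈ X p.1 ∧ x ∈ X p.2.1 ∧ x ∈ X p.2.2)).card =
      (univ.filter (fun p : ι × ι × ι => p.1 ≠ p.2.1 ∧ R p.1 p.2.2 ∧ R p.2.1 p.2.2 ∧
        x ∈ X p.1 ∧ x ∈ X p.2.1 ∧ x ∈ X p.2.2)).card := by
    intro x
    refine Finset.card_bij' (fun p _ => (p.2.1, p.2.2, p.1)) (fun p _ => (p.2.2, p.1, p.2.1)) ?_ ?_ ?_ ?_
    · intro p hp; simp only [mem_filter, mem_univ, true_and] at hp ⊢; tauto
    · intro p hp; simp only [mem_filter, mem_univ, true_and] at hp ⊢; tauto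
    · intro p _; rfl
    · intro p _; rfl
  simp only [e1, e2, e3] at H
  omega

end Pool.Agent.K4H58.XK
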