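import Pool.Agent.K4H58.XK.D1
import Pool.Agent.K4H81.XKD2

open Finset

namespace Pool.Agent.K4H58.XK

/-- the mirror image of `pointwise` -/
theorem pointwise' {ι α : Type} [Fintype ι] [DecidableEq ι] [Fintype α] [DecidableEq α] {k : ℕ}
    (X : ι → Finset α) (hX : ∀ i, (X i).card = k) (R : ι → ι → Prop) [DecidableRel R]
    (h1 : ∀ i j, R i j → ¬ Disjoint (X i) (X j))
    (h2 : ∀ i j i' j', R i j → R i' j' → R i j' ∨ R i' j) :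
    2 * ∑ x : α, (univ.filter (fun p : ι × ι => R p.1 p.2 ∧ x ∈ X p.1 ∧ x ∈ X p.2)).card ≤
      2 * k ^ 2 +
      (1 + k) * ∑ x : α, (univ.filter (fun p : ι × ι × ι => p.1 ≠ p.2.1 ∧ R p.1 p.2.2 ∧ R p.2.1 p.2.2 ∧
        x ∈ X p.1 ∧ x ∈ X p.2.1 ∧ x ∈ X p.2.2)).card +
      ∑ x : α, (univ.filter (fun p : ι × ι × ι => p.2.1 ≠ p.2.2 ∧ R p.1 p.2.1 ∧ R p.1 p.2.2 ∧
        x ∈ X p.1 ∧ x ∈ X p.2.1 ∧ x ∈ X p.2.2)).card :=
  pointwise'_of X R (pointwise X hX (fun i j => R j i) (fun i j h hd => h1 j i h hd.symm)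
    (fun i j i' j' h h' => (h2 j i j' i' h h').symm))

end Pool.Agent.K4H58.XK
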