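import Pool.Agent.K4H65.EM.Spec

set_option autoImplicit false

namespace Pool.Agent.K4H65.EM

open Finset

theorem step : S_TT → S_STEP := by
  classical
  intro hTT n d L m G S hm hP1 hP2 hC U hU
  obtain ⟨T, hT, hcn⟩ := hTT n L m G hm hP2 U hU
  set U' := U \ T with hU'
  set Si : Fin d → Finset (Fin n × Fin n) :=
    fun i => (S i).filter (fun e => e.1 ∈ U' ∧ e.2 ∈ U') with hSi
  set I0 := (univ : Finset (Fin d)).filter (fun i => (Si i).Nonempty) with hI0
  set I1 := I0.filter (fun i => ((Si i).image Prod.fst).card ≤ 1 ∨ ((Si i).image Prod.snd).card ≤ 1)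
    with hI1
  set I2 := I0.filter (fun i => ¬ (((Si i).image Prod.fst).card ≤ 1 ∨ ((Si i).image Prod.snd).card ≤ 1))
    with hI2
  have hz : ∀ i ∈ I1, ∃ z : Fin n, ∀ e ∈ Si i, e.1 = z ∨ e.2 = z := by
    intro i hi
    obtain ⟨h0, h1⟩ := mem_filter.1 hi
    obtain ⟨e0, he0⟩ := (mem_filter.1 h0).2
    rcases h1 with h1 | h1
    · exact ⟨e0.1, fun e he => Or.inl (Finset.card_le_one.1 h1 _ (mem_image_of_mem _ he) _
        (mem_image_of_mem _ he0))⟩
    · exact ⟨e0.2, fun e he => Or.inr (Finset.card_le_one.1 h1 _ (mem_image_of_mem _ he) _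
        (mem_image_of_mem _ he0))⟩
  choose z hz using hz
  set Z : Finset (Fin n) := I1.attach.image (fun i => z i.1 i.2) with hZ
  have hmem : ∀ i (hi : i ∈ I1), z i hi ∈ Z := fun i hi =>
    mem_image.2 ⟨⟨i, hi⟩, mem_attach _ _, rfl⟩
  set U1 := U' \ Z with hU1
  have hact : ∀ i, (∃ e ∈ S i, e.1 ∈ U1 ∧ e.2 ∈ U1) → i ∈ I2 := by
    rintro i ⟨e, he, h1, h2⟩
    have heS : e ∈ Si i := mem_filter.2 ⟨he, (mem_sdiff.1 h1).1, (mem_sdiff.1 h2).1⟩
    have h0 : i ∈ I0 := mem_filter.2 ⟨mem_univ _, ⟨e, heS⟩⟩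
    by_contra hn
    have hi1 : i ∈ I1 := by
      refine mem_filter.2 ⟨h0, ?_⟩
      by_contra hh
      exact hn (mem_filter.2 ⟨h0, hh⟩)
    rcases hz i hi1 e heS with h3 | h3
    · exact (mem_sdiff.1 h1).2 (by rw [h3]; exact hmem i hi1)
    · exact (mem_sdiff.1 h2).2 (by rw [h3]; exact hmem i hi1)
  refine ⟨U1, I1.card, I2.card, ?_, ?_, ?_, ?_⟩
  · unfold act
    exact card_le_card (fun i hi => hact i (mem_filter.1 hi).2)
  · have h1 : I1.card + I2.card = I0.card := by
      rw [hI1, hI2]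
      exact Finset.card_filter_add_card_filter_not _
    rw [h1]
    unfold act
    refine card_le_card (fun i hi => ?_)
    obtain ⟨e, he⟩ := (mem_filter.1 hi).2
    obtain ⟨h1, h2, h3⟩ := mem_filter.1 he
    exact mem_filter.2 ⟨mem_univ _, e, h1, (mem_sdiff.1 h2).1, (mem_sdiff.1 h3).1⟩
  · have h1 : U.card ≤ U'.card + T.card := Finset.card_le_card_sdiff_add_card
    have h2 : U'.card ≤ U1.card + Z.card := Finset.card_le_card_sdiff_add_card
    have h3 : Z.card ≤ I1.card := by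
      rw [hZ, ← card_attach (s := I1)]
      exact card_image_le
    omega
  · intro hL
    have hp := hP1 U1 hL
    -- the size of a type II set
    have hsize : ∀ i ∈ I2, 64 * 1024 * (Si i).card ≤ 2 * U.card := by
      intro i hi
      obtain ⟨h0, h1⟩ := mem_filter.1 hi
      push Not at h1
      obtain ⟨hA, hB⟩ := h1
      obtain ⟨a, ha, a', ha', haa⟩ := Finset.one_lt_card.1 hA
      obtain ⟨b, hb, b', hb', hbb⟩ := Finset.one_lt_card.1 hB
      have hadj : ∀ x ∈ (Si i).image Prod.fst, ∀ y ∈ (Si i).image Prod.snd, G.Adj x y := by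
        intro x hx y hy
        obtain ⟨e, he, rfl⟩ := mem_image.1 hx
        obtain ⟨e', he', rfl⟩ := mem_image.1 hy
        exact hC.bic i e.1 e.2 e'.1 e'.2 (mem_filter.1 he).1 (mem_filter.1 he').1
      have hfU : ∀ x ∈ (Si i).image Prod.fst, x ∈ U' := by
        intro x hx
        obtain ⟨e, he, rfl⟩ := mem_image.1 hx
        exact (mem_filter.1 he).2.1
      have hsU : ∀ x ∈ (Si i).image Prod.snd, x ∈ U' := by
        intro x hx
        obtain ⟨e, he, rfl⟩ := mem_image.1 hx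
        exact (mem_filter.1 he).2.2
      have hc1 : ((Si i).image Prod.fst).card ≤ cn G U b b' := by
        unfold cn
        refine card_le_card (fun x hx => mem_filter.2 ⟨(mem_sdiff.1 (hfU x hx)).1, ?_, ?_⟩)
        · exact (hadj x hx b hb).symm
        · exact (hadj x hx b' hb').symm
      have hc2 : ((Si i).image Prod.snd).card ≤ cn G U a a' := by
        unfold cn
        refine card_le_card (fun x hx => mem_filter.2 ⟨(mem_sdiff.1 (hsU x hx)).1, ?_, ?_⟩)
        · exact hadj a ha x hx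
        · exact hadj a' ha' x hx
      have hb1 := hcn b (mem_sdiff.1 (hsU b hb)).2 b' (mem_sdiff.1 (hsU b' hb')).2 hbb
      have ha1 := hcn a (mem_sdiff.1 (hfU a ha)).2 a' (mem_sdiff.1 (hfU a' ha')).2 haa
      have hfo := hC.forest i (Si i) (filter_subset _ _)
      omega
    have hcount : ((U1 ×ˢ U1).filter fun e => G.Adj e.1 e.2).card ≤ 2 * ∑ i ∈ I2, (Si i).card := by
      have hsub : ((U1 ×ˢ U1).filter fun e => G.Adj e.1 e.2) ⊆
          I2.biUnion Si ∪ I2.biUnion (fun i => (Si i).image Prod.swap) := by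
        intro e he
        obtain ⟨h1, h2⟩ := mem_filter.1 he
        obtain ⟨h3, h4⟩ := mem_product.1 h1
        obtain ⟨i, hi⟩ := hC.cov e.1 e.2 h2
        have h3' : e.1 ∈ U' := (mem_sdiff.1 h3).1
        have h4' : e.2 ∈ U' := (mem_sdiff.1 h4).1
        rcases hi with hi | hi
        · refine mem_union_left _ (mem_biUnion.2 ⟨i, hact i ⟨(e.1, e.2), hi, h3, h4⟩, ?_⟩)
          exact mem_filter.2 ⟨hi, h3', h4'⟩
        · refine mem_union_right _ (mem_biUnion.2 ⟨i, hact i ⟨(e.2, e.1), hi, h4, h3⟩, ?_⟩)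
          exact mem_image.2 ⟨(e.2, e.1), mem_filter.2 ⟨hi, h4', h3'⟩, rfl⟩
      refine (card_le_card hsub).trans ((card_union_le _ _).trans ?_)
      have h5 : (I2.biUnion Si).card ≤ ∑ i ∈ I2, (Si i).card := card_biUnion_le
      have h6 : (I2.biUnion (fun i => (Si i).image Prod.swap)).card ≤ ∑ i ∈ I2, (Si i).card :=
        card_biUnion_le.trans (sum_le_sum fun i _ => card_image_le)
      omega
    have hsum : 64 * 1024 * ∑ i ∈ I2, (Si i).card ≤ I2.card * (2 * U.card) := by
      rw [mul_sum]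
      calc ∑ i ∈ I2, 64 * 1024 * (Si i).card ≤ ∑ i ∈ I2, 2 * U.card := sum_le_sum hsize
        _ = I2.card * (2 * U.card) := by rw [sum_const, smul_eq_mul]
    have h7 : U1.card ^ 2 ≤ 8 * 1024 * (2 * ∑ i ∈ I2, (Si i).card) :=
      hp.trans (Nat.mul_le_mul_left _ hcount)
    have h8 : I2.card * (2 * U.card) = 2 * (I2.card * U.card) := by ring
    rw [h8] at hsum
    omega

end Pool.Agent.K4H65.EM
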