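import Mathlib

/-!
# Rook graphs and 2-colourable 3-graphs without `K_4^3`: the reduction
-/

set_option autoImplicit false

open Finset

namespace Pool.Agent.K4H81.Rook

/-- the minimum number of sides which meet all rectangles of an `n` by `m` grid -/
def kap (n m : ℕ) : ℕ := ∑ j ∈ range (min n m), (n - 1 - j) * (m - 1 - j)

/-- the sides `R a` (pairs `b < b'` in row `a`) and `P b` (pairs `a < a'` in column `b`) meet all
rectangles -/
def Hits {n m : ℕ} (R : Fin n → Finset (Fin m × Fin m)) (P : Fin m → Finset (Fin n × Fin n)) :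
    Prop :=
  ∀ a a', a < a' → ∀ b b', b < b' →
    (b, b') ∈ R a ∨ (b, b') ∈ R a' ∨ (a, a') ∈ P b ∨ (a, a') ∈ P b'

/-- the hitting bound -/
def HitBound : Prop :=
  ∀ (n m : ℕ) (R : Fin n → Finset (Fin m × Fin m)) (P : Fin m → Finset (Fin n × Fin n)),
    Hits R P → kap n m ≤ ∑ a, (R a).card + ∑ b, (P b).card

lemma card_lt (m : ℕ) :
    ((univ : Finset (Fin m × Fin m)).filter (fun q => q.1 < q.2)).card = m.choose 2 := by
  classical
  have h : ((univ : Finset (Fin m × Fin m)).filter (fun q => q.1 < q.2)).card =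
      ((univ : Finset (Fin m)).powersetCard 2).card := by
    apply Finset.card_bij (fun q _ => ({q.1, q.2} : Finset (Fin m)))
    · intro q hq
      simp only [mem_filter, mem_univ, true_and] at hq
      simp [mem_powersetCard, card_pair hq.ne]
    · intro q hq r hr he
      simp only [mem_filter, mem_univ, true_and] at hq hr
      have h1 : q.1 ∈ ({r.1, r.2} : Finset (Fin m)) := by rw [← he]; simp
      have h2 : q.2 ∈ ({r.1, r.2} : Finset (Fin m)) := by rw [← he]; simp
      have h3 : r.1 ∈ ({q.1, q.2} : Finset (Fin m)) := by rw [he]; simp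
      simp only [mem_insert, mem_singleton] at h1 h2 h3
      ext1
      · rcases h1 with h1 | h1
        · exact h1
        · rcases h2 with h2 | h2
          · rw [h1, h2] at hq
            exact absurd (lt_trans hq hr) (lt_irrefl _)
          · rw [h1, h2] at hq
            exact absurd hq (lt_irrefl _)
      · rcases h2 with h2 | h2
        · rcases h1 with h1 | h1
          · rw [h1, h2] at hq
            exact absurd hq (lt_irrefl _)
          · rw [h1, h2] at hq
            exact absurd (lt_trans hq hr) (lt_irrefl _)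
        · exact h2
    · intro s hs
      simp only [mem_powersetCard, subset_univ, true_and] at hs
      obtain ⟨x, y, hxy, rfl⟩ := card_eq_two.1 hs
      rcases lt_or_gt_of_ne hxy with h | h
      · exact ⟨(x, y), by simpa using h, rfl⟩
      · exact ⟨(y, x), by simpa using h, by simp [pair_comm]⟩
  rw [h, card_powersetCard, card_univ, Fintype.card_fin]

section

variable {V : Type*} [Fintype V] [DecidableEq V]

/-- the number of edges together with the hitting number -/
theorem count (hit : HitBound) {H : Finset (Finset V)} (three : ∀ e ∈ H, e.card = 3)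
    (free : ∀ S : Finset V, S.card = 4 → ∃ e ⊆ S, e.card = 3 ∧ e ∉ H) {A : Finset V}
    (indep : ∀ e ∈ H, ¬ e ⊆ A) (indep' : ∀ e ∈ H, ¬ e ⊆ Aᶜ) :
    H.card + kap A.card Aᶜ.card ≤
      A.card * (Aᶜ.card).choose 2 + Aᶜ.card * (A.card).choose 2 := by
  classical
  set k := A.card with hk
  set m := Aᶜ.card with hm
  let f : Fin k ≃ A := (A.equivFinOfCardEq hk.symm).symm
  let g : Fin m ≃ (Aᶜ : Finset V) := (Aᶜ.equivFinOfCardEq hm.symm).symm
  have hf : ∀ i, (f i : V) ∈ A := fun i => (f i).2
  have hg : ∀ i, (g i : V) ∉ A := fun i => mem_compl.1 (g i).2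
  have fne : ∀ {i j}, i ≠ j → (f i : V) ≠ f j := fun h h' => h (f.injective (Subtype.ext h'))
  have gne : ∀ {i j}, i ≠ j → (g i : V) ≠ g j := fun h h' => h (g.injective (Subtype.ext h'))
  have fg : ∀ i j, (f i : V) ≠ g j := fun i j h => hg j (h ▸ hf i)
  let E1 : Fin k → Finset (Fin m × Fin m) := fun a => univ.filter fun q =>
    q.1 < q.2 ∧ ({(f a : V), (g q.1 : V), (g q.2 : V)} : Finset V) ∈ H
  let E2 : Fin m → Finset (Fin k × Fin k) := fun b => univ.filter fun q =>
    q.1 < q.2 ∧ ({(g b : V), (f q.1 : V), (f q.2 : V)} : Finset V) ∈ H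
  let R : Fin k → Finset (Fin m × Fin m) := fun a => univ.filter fun q =>
    q.1 < q.2 ∧ ({(f a : V), (g q.1 : V), (g q.2 : V)} : Finset V) ∉ H
  let P : Fin m → Finset (Fin k × Fin k) := fun b => univ.filter fun q =>
    q.1 < q.2 ∧ ({(g b : V), (f q.1 : V), (f q.2 : V)} : Finset V) ∉ H
  have hR : ∀ a, (R a).card + (E1 a).card = m.choose 2 := by
    intro a
    rw [← card_lt m, ← card_union_of_disjoint]
    · congr 1
      ext q
      simp only [R, E1, mem_union, mem_filter, mem_univ, true_and]
      tauto
    · rw [disjoint_left]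
      intro q hq hq'
      simp only [R, E1, mem_filter, mem_univ, true_and] at hq hq'
      exact hq.2 hq'.2
  have hP : ∀ b, (P b).card + (E2 b).card = k.choose 2 := by
    intro b
    rw [← card_lt k, ← card_union_of_disjoint]
    · congr 1
      ext q
      simp only [P, E2, mem_union, mem_filter, mem_univ, true_and]
      tauto
    · rw [disjoint_left]
      intro q hq hq'
      simp only [P, E2, mem_filter, mem_univ, true_and] at hq hq'
      exact hq.2 hq'.2
  have hits : Hits R P := by
    intro a a' haa b b' hbb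
    have c4 : ({(f a : V), (f a' : V), (g b : V), (g b' : V)} : Finset V).card = 4 := by
      rw [card_insert_of_notMem, card_insert_of_notMem, card_pair (gne hbb.ne)]
      · simp [fg]
      · simp [fg, fne haa.ne]
    obtain ⟨e, he, he3, heH⟩ := free _ c4
    obtain ⟨x, hx⟩ : ∃ x, ({(f a : V), (f a' : V), (g b : V), (g b' : V)} : Finset V) \ e = {x} := by
      rw [← card_eq_one, card_sdiff_of_subset he, c4, he3]
    have hxS : x ∈ ({(f a : V), (f a' : V), (g b : V), (g b' : V)} : Finset V) \ e := by
      rw [hx]; simp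
    have hee : e = ({(f a : V), (f a' : V), (g b : V), (g b' : V)} : Finset V).erase x := by
      rw [← sdiff_singleton_eq_erase, ← hx, Finset.sdiff_sdiff_eq_self he]
    have hx4 : x = f a ∨ x = f a' ∨ x = g b ∨ x = g b' := by
      have := (mem_sdiff.1 hxS).1
      simpa using this
    rcases hx4 with rfl | rfl | rfl | rfl
    · right; left
      simp only [R, mem_filter, mem_univ, true_and]
      refine ⟨hbb, ?_⟩
      refine fun hmem => heH ?_
      convert hmem using 1
      rw [hee]
      symm
      ext z
      simp only [mem_insert, mem_singleton, mem_erase]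
      constructor
      · rintro (rfl | rfl | rfl)
        · exact ⟨fne haa.ne', by simp⟩
        · exact ⟨(fg _ _).symm, by simp⟩
        · exact ⟨(fg _ _).symm, by simp⟩
      · tauto
    · left
      simp only [R, mem_filter, mem_univ, true_and]
      refine ⟨hbb, ?_⟩
      refine fun hmem => heH ?_
      convert hmem using 1
      rw [hee]
      symm
      ext z
      simp only [mem_insert, mem_singleton, mem_erase]
      constructor
      · rintro (rfl | rfl | rfl)
        · exact ⟨fne haa.ne, by simp⟩
        · exact ⟨(fg _ _).symm, by simp⟩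
        · exact ⟨(fg _ _).symm, by simp⟩
      · tauto
    · right; right; right
      simp only [P, mem_filter, mem_univ, true_and]
      refine ⟨haa, ?_⟩
      refine fun hmem => heH ?_
      convert hmem using 1
      rw [hee]
      symm
      ext z
      simp only [mem_insert, mem_singleton, mem_erase]
      constructor
      · rintro (rfl | rfl | rfl)
        · exact ⟨gne hbb.ne', by simp⟩
        · exact ⟨fg _ _, by simp⟩
        · exact ⟨fg _ _, by simp⟩
      · tauto
    · right; right; left
      simp only [P, mem_filter, mem_univ, true_and]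
      refine ⟨haa, ?_⟩
      refine fun hmem => heH ?_
      convert hmem using 1
      rw [hee]
      symm
      ext z
      simp only [mem_insert, mem_singleton, mem_erase]
      constructor
      · rintro (rfl | rfl | rfl)
        · exact ⟨gne hbb.ne, by simp⟩
        · exact ⟨fg _ _, by simp⟩
        · exact ⟨fg _ _, by simp⟩
      · tauto
  have hb := hit k m R P hits
  have hH : H.card ≤ ∑ a, (E1 a).card + ∑ b, (E2 b).card := by
    have sub : H ⊆ (univ.sigma E1).image (fun x => ({(f x.1 : V), (g x.2.1 : V), (g x.2.2 : V)} :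
        Finset V)) ∪ (univ.sigma E2).image (fun x => ({(g x.1 : V), (f x.2.1 : V), (f x.2.2 : V)} :
        Finset V)) := by
      intro e he
      have hA : ∀ x, x ∈ A → ∃ i, (f i : V) = x := fun x hx => ⟨f.symm ⟨x, hx⟩, by simp⟩
      have hB : ∀ x, x ∉ A → ∃ i, (g i : V) = x := fun x hx =>
        ⟨g.symm ⟨x, by simpa using hx⟩, by simp⟩
      have key1 : ∀ x y z : V, x ∈ A → y ∉ A → z ∉ A → y ≠ z → ({x, y, z} : Finset V) ∈ H →
          ({x, y, z} : Finset V) ∈ (univ.sigma E1).image (fun x => ({(f x.1 : V), (g x.2.1 : V),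
            (g x.2.2 : V)} : Finset V)) := by
        intro x y z hx hy hz hyz hH
        obtain ⟨i, rfl⟩ := hA x hx
        obtain ⟨j, rfl⟩ := hB y hy
        obtain ⟨l, rfl⟩ := hB z hz
        have hjl : j ≠ l := fun h => hyz (by rw [h])
        rw [mem_image]
        rcases lt_or_gt_of_ne hjl with h | h
        · exact ⟨⟨i, j, l⟩, by simp [E1, h, hH], rfl⟩
        · refine ⟨⟨i, l, j⟩, ?_, ?_⟩
          · simp only [mem_sigma, mem_univ, true_and, E1, mem_filter]
            refine ⟨h, ?_⟩
            rw [pair_comm]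
            exact hH
          · simp [pair_comm]
      have key2 : ∀ x y z : V, x ∉ A → y ∈ A → z ∈ A → y ≠ z → ({x, y, z} : Finset V) ∈ H →
          ({x, y, z} : Finset V) ∈ (univ.sigma E2).image (fun x => ({(g x.1 : V), (f x.2.1 : V),
            (f x.2.2 : V)} : Finset V)) := by
        intro x y z hx hy hz hyz hH
        obtain ⟨i, rfl⟩ := hB x hx
        obtain ⟨j, rfl⟩ := hA y hy
        obtain ⟨l, rfl⟩ := hA z hz
        have hjl : j ≠ l := fun h => hyz (by rw [h])
        rw [mem_image]
        rcases lt_or_gt_of_ne hjl with h | h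
        · exact ⟨⟨i, j, l⟩, by simp [E2, h, hH], rfl⟩
        · refine ⟨⟨i, l, j⟩, ?_, ?_⟩
          · simp only [mem_sigma, mem_univ, true_and, E2, mem_filter]
            refine ⟨h, ?_⟩
            rw [pair_comm]
            exact hH
          · simp [pair_comm]
      obtain ⟨x, y, z, hxy, hxz, hyz, rfl⟩ := card_eq_three.1 (three e he)
      have n1 : ¬ (x ∈ A ∧ y ∈ A ∧ z ∈ A) := by
        rintro ⟨h1, h2, h3⟩
        apply indep _ he
        intro w hw
        simp only [mem_insert, mem_singleton] at hw
        rcases hw with rfl | rfl | rfl <;> assumption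
      have n2 : ¬ (x ∉ A ∧ y ∉ A ∧ z ∉ A) := by
        rintro ⟨h1, h2, h3⟩
        apply indep' _ he
        intro w hw
        simp only [mem_insert, mem_singleton] at hw
        rcases hw with rfl | rfl | rfl <;> simpa using ‹_›
      have p1 : ({x, y, z} : Finset V) = {y, x, z} := by
        ext w; simp only [mem_insert, mem_singleton]; tauto
      have p2 : ({x, y, z} : Finset V) = {z, x, y} := by
        ext w; simp only [mem_insert, mem_singleton]; tauto
      rw [mem_union]
      by_cases hx : x ∈ A <;> by_cases hy : y ∈ A <;> by_cases hz : z ∈ A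
      · exact absurd ⟨hx, hy, hz⟩ n1
      · right; rw [p2]; exact key2 _ _ _ hz hx hy hxy (p2 ▸ he)
      · right; rw [p1]; exact key2 _ _ _ hy hx hz hxz (p1 ▸ he)
      · left; exact key1 _ _ _ hx hy hz hyz he
      · right; exact key2 _ _ _ hx hy hz hyz he
      · left; rw [p1]; exact key1 _ _ _ hy hx hz hxz (p1 ▸ he)
      · left; rw [p2]; exact key1 _ _ _ hz hx hy hxy (p2 ▸ he)
      · exact absurd ⟨hx, hy, hz⟩ n2
    refine (card_le_card sub).trans ((card_union_le _ _).trans ?_)
    refine add_le_add (card_image_le.trans ?_) (card_image_le.trans ?_)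
    · rw [card_sigma]
    · rw [card_sigma]
  have t1 : ∑ a, (R a).card + ∑ a, (E1 a).card = k * m.choose 2 := by
    rw [← sum_add_distrib, sum_congr rfl fun a _ => hR a]
    simp
  have t2 : ∑ b, (P b).card + ∑ b, (E2 b).card = m * k.choose 2 := by
    rw [← sum_add_distrib, sum_congr rfl fun a _ => hP a]
    simp
  omega

end

/-- closed form on one side of the diagonal -/
lemma kap_eq (n m : ℕ) (h : n ≤ m) :
    (kap n m : ℤ) * 6 = 3 * m * n * (n - 1) - (n + 1) * n * (n - 1) := by
  unfold kap
  rw [min_eq_left h]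
  push_cast
  have key : ∀ t : ℕ, t ≤ n → (∑ j ∈ range t, (((n - 1 - j : ℕ) : ℤ) * ((m - 1 - j : ℕ) : ℤ))) * 6 =
      ∑ j ∈ range t, (((n : ℤ) - 1 - j) * ((m : ℤ) - 1 - j)) * 6 := by
    intro t ht
    rw [sum_mul]
    apply sum_congr rfl
    intro j hj
    rw [mem_range] at hj
    rw [Nat.cast_sub (by omega), Nat.cast_sub (by omega), Nat.cast_sub (by omega),
      Nat.cast_sub (by omega)]
    push_cast
    ring
  rw [key n le_rfl]
  have cl : ∀ t : ℕ, ∑ j ∈ range t, (((n : ℤ) - 1 - j) * ((m : ℤ) - 1 - j)) * 6 =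
      6 * t * (n - 1) * (m - 1) - 3 * (n + m - 2) * t * (t - 1) + t * (t - 1) * (2 * t - 1) := by
    intro t
    induction t with
    | zero => simp
    | succ t ih => rw [sum_range_succ, ih]; push_cast; ring
  rw [cl n]
  ring

lemma kap_symm (n m : ℕ) : kap n m = kap m n := by
  unfold kap
  rw [min_comm]
  apply sum_congr rfl
  intro j _
  rw [mul_comm]

/-- the final inequality -/
lemma final (k m h : ℕ) (H : h + kap k m ≤ k * m.choose 2 + m * k.choose 2) :
    12 * h ≤ (k + m) ^ 3 := by
  have c2 : ∀ n : ℕ, ((n.choose 2 : ℕ) : ℤ) * 2 = n * (n - 1) := by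
    intro n
    have := Nat.choose_two_right n
    have h2 : n.choose 2 * 2 = n * (n - 1) := by
      rw [this]
      exact Nat.div_mul_cancel (Nat.even_mul_pred_self n).two_dvd
    rcases Nat.eq_zero_or_pos n with rfl | hn
    · simp
    · have h3 := congrArg (Nat.cast : ℕ → ℤ) h2
      push_cast [Nat.cast_sub hn] at h3
      exact h3
  have main : ∀ k m h : ℕ, k ≤ m → h + kap k m ≤ k * m.choose 2 + m * k.choose 2 →
      12 * h ≤ (k + m) ^ 3 := by
    intro k m h hkm H
    have H1 : (h : ℤ) + kap k m ≤ k * (m.choose 2 : ℕ) + m * (k.choose 2 : ℕ) := by exact_mod_cast H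
    have H2 := kap_eq k m hkm
    have a1 := c2 k
    have a2 := c2 m
    have e1 : (k : ℤ) * (m.choose 2 : ℕ) * 2 = k * (m * (m - 1)) := by rw [mul_assoc, a2]
    have e2 : (m : ℤ) * (k.choose 2 : ℕ) * 2 = m * (k * (k - 1)) := by rw [mul_assoc, a1]
    have d : (0 : ℤ) ≤ m - k := by
      have : (k : ℤ) ≤ m := by exact_mod_cast hkm
      linarith
    have d3 : (0 : ℤ) ≤ ((m : ℤ) - k) ^ 3 := pow_nonneg d 3
    have k0 : (0 : ℤ) ≤ k := Int.natCast_nonneg k
    have m0 : (0 : ℤ) ≤ m := Int.natCast_nonneg m
    have km0 : (0 : ℤ) ≤ k * m := mul_nonneg k0 m0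
    have goal : (12 * (h : ℤ)) ≤ ((k : ℤ) + m) ^ 3 := by
      nlinarith
    exact_mod_cast goal
  rcases le_total k m with hkm | hkm
  · exact main k m h hkm H
  · have := main m k h hkm (by rw [kap_symm m k]; omega)
    rwa [add_comm m k] at this

/-- the conditional theorem -/
theorem bound (hit : HitBound) {V : Type*} [Fintype V] [DecidableEq V] {H : Finset (Finset V)}
    (three : ∀ e ∈ H, e.card = 3)
    (free : ∀ S : Finset V, S.card = 4 → ∃ e ⊆ S, e.card = 3 ∧ e ∉ H) {A : Finset V}
    (indep : ∀ e ∈ H, ¬ e ⊆ A) (indep' : ∀ e ∈ H, ¬ e ⊆ Aᶜ) :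
    12 * H.card ≤ Fintype.card V ^ 3 := by
  have h := final _ _ _ (count hit three free indep indep')
  rwa [card_add_card_compl] at h

end Pool.Agent.K4H81.Rook
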