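import Mathlib

/-!
# The half graph: 2-colourable 3-graphs of density `1 / 2` without `K_4^3`
-/

set_option autoImplicit false

open Finset

namespace Pool.Agent.K4H81.Rook

/-- triples whose largest element has the parity of exactly one other element -/
def half (n : ℕ) : Finset (Finset (Fin n)) :=
  ((univ : Finset (Fin n × Fin n × Fin n)).filter fun t =>
    t.1 < t.2.2 ∧ t.2.1 < t.2.2 ∧ (t.1 : ℕ) % 2 = (t.2.2 : ℕ) % 2 ∧
      (t.2.1 : ℕ) % 2 ≠ (t.2.2 : ℕ) % 2).image fun t => {t.1, t.2.1, t.2.2}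

/-- the even vertices -/
def evens (n : ℕ) : Finset (Fin n) := univ.filter fun i => (i : ℕ) % 2 = 0

lemma mem_half {n : ℕ} {e : Finset (Fin n)} : e ∈ half n ↔ ∃ i j k : Fin n, i < k ∧ j < k ∧
    (i : ℕ) % 2 = (k : ℕ) % 2 ∧ (j : ℕ) % 2 ≠ (k : ℕ) % 2 ∧ e = {i, j, k} := by
  simp only [half, mem_image, mem_filter, mem_univ, true_and]
  constructor
  · rintro ⟨⟨i, j, k⟩, ⟨h1, h2, h3, h4⟩, rfl⟩
    exact ⟨i, j, k, h1, h2, h3, h4, rfl⟩
  · rintro ⟨i, j, k, h1, h2, h3, h4, rfl⟩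
    exact ⟨(i, j, k), ⟨h1, h2, h3, h4⟩, rfl⟩

lemma top {n : ℕ} {w x z : Fin n} (hw : w < z) (hx : x < z)
    (h : ({w, x, z} : Finset (Fin n)) ∈ half n) : (w : ℕ) % 2 ≠ (x : ℕ) % 2 := by
  obtain ⟨i, j, k, h1, h2, h3, h4, he⟩ := mem_half.1 h
  have hz : z ∈ ({i, j, k} : Finset (Fin n)) := by rw [← he]; simp
  have hk : k ∈ ({w, x, z} : Finset (Fin n)) := by rw [he]; simp
  have hi : i ∈ ({w, x, z} : Finset (Fin n)) := by rw [he]; simp
  have hj : j ∈ ({w, x, z} : Finset (Fin n)) := by rw [he]; simp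
  simp only [mem_insert, mem_singleton] at hz hk hi hj
  have kz : k ≤ z := by
    rcases hk with rfl | rfl | rfl
    · exact hw.le
    · exact hx.le
    · exact le_rfl
  have zk : z = k := by
    rcases hz with rfl | rfl | rfl
    · exact absurd (lt_of_lt_of_le h1 kz) (lt_irrefl _)
    · exact absurd (lt_of_lt_of_le h2 kz) (lt_irrefl _)
    · rfl
  subst zk
  rcases hi with rfl | rfl | rfl
  · rcases hj with rfl | rfl | rfl
    · exact absurd h3 h4
    · rw [h3]; exact fun h => h4 h.symm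
    · exact absurd h2 (lt_irrefl _)
  · rcases hj with rfl | rfl | rfl
    · rw [h3]; exact h4
    · exact absurd h3 h4
    · exact absurd h2 (lt_irrefl _)
  · exact absurd h1 (lt_irrefl _)

lemma half_three {n : ℕ} : ∀ e ∈ half n, e.card = 3 := by
  intro e he
  obtain ⟨i, j, k, h1, h2, h3, h4, rfl⟩ := mem_half.1 he
  rw [card_eq_three]
  refine ⟨i, j, k, ?_, h1.ne, h2.ne, rfl⟩
  rintro rfl
  exact h4 h3

lemma half_free {n : ℕ} (S : Finset (Fin n)) (hS : S.card = 4) :
    ∃ e ⊆ S, e.card = 3 ∧ e ∉ half n := by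
  by_contra hcon
  push_neg at hcon
  have ne : S.Nonempty := by rw [← card_pos]; omega
  set z := S.max' ne with hz
  have zS : z ∈ S := max'_mem _ _
  have h3 : (S.erase z).card = 3 := by rw [card_erase_of_mem zS]; omega
  obtain ⟨w, x, y, hwx, hwy, hxy, he⟩ := card_eq_three.1 h3
  have mem : ∀ u, u ∈ S.erase z → u ∈ S ∧ u < z := by
    intro u hu
    obtain ⟨h1, h2⟩ := mem_erase.1 hu
    exact ⟨h2, lt_of_le_of_ne (le_max' _ _ h2) h1⟩
  have hw := mem w (by rw [he]; simp)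
  have hx := mem x (by rw [he]; simp)
  have hy := mem y (by rw [he]; simp)
  have key : ∀ u v, u ≠ v → (u ∈ S ∧ u < z) → (v ∈ S ∧ v < z) → (u : ℕ) % 2 ≠ (v : ℕ) % 2 := by
    intro u v huv hu hv
    refine top hu.2 hv.2 (hcon _ ?_ ?_)
    · intro t ht
      simp only [mem_insert, mem_singleton] at ht
      rcases ht with rfl | rfl | rfl
      · exact hu.1
      · exact hv.1
      · exact zS
    · rw [card_eq_three]
      exact ⟨u, v, z, huv, hu.2.ne, hv.2.ne, rfl⟩
  have k1 := key w x hwx hw hx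
  have k2 := key w y hwy hw hy
  have k3 := key x y hxy hx hy
  omega

lemma half_indep {n : ℕ} : ∀ e ∈ half n, ¬ e ⊆ evens n := by
  intro e he hsub
  obtain ⟨i, j, k, h1, h2, h3, h4, rfl⟩ := mem_half.1 he
  have hj := hsub (show j ∈ ({i, j, k} : Finset (Fin n)) by simp)
  have hk := hsub (show k ∈ ({i, j, k} : Finset (Fin n)) by simp)
  simp only [evens, mem_filter, mem_univ, true_and] at hj hk
  omega

lemma half_indep' {n : ℕ} : ∀ e ∈ half n, ¬ e ⊆ (evens n)ᶜ := by
  intro e he hsub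
  obtain ⟨i, j, k, h1, h2, h3, h4, rfl⟩ := mem_half.1 he
  have hj := hsub (show j ∈ ({i, j, k} : Finset (Fin n)) by simp)
  have hk := hsub (show k ∈ ({i, j, k} : Finset (Fin n)) by simp)
  simp only [evens, mem_compl, mem_filter, mem_univ, true_and] at hj hk
  omega

lemma half_card (n : ℕ) : ∑ k ∈ range n, (k / 2) * ((k + 1) / 2) ≤ (half n).card := by
  classical
  let T : Finset (Σ _ : Fin n, ℕ × ℕ) :=
    (univ : Finset (Fin n)).sigma fun k => range ((k : ℕ) / 2) ×ˢ range (((k : ℕ) + 1) / 2)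
  have hT : T.card = ∑ k ∈ range n, (k / 2) * ((k + 1) / 2) := by
    simp only [T, card_sigma, card_product, card_range]
    exact Fin.sum_univ_eq_sum_range (fun k => (k / 2) * ((k + 1) / 2)) n
  rw [← hT]
  let F : (Σ _ : Fin n, ℕ × ℕ) → Finset (Fin n) := fun t =>
    {⟨(t.1 : ℕ) - 2 - 2 * t.2.1, by have := t.1.2; omega⟩,
      ⟨(t.1 : ℕ) - 1 - 2 * t.2.2, by have := t.1.2; omega⟩, t.1}
  have spec : ∀ t ∈ T, 2 * t.2.1 + 2 ≤ (t.1 : ℕ) ∧ 2 * t.2.2 + 1 ≤ (t.1 : ℕ) := by
    intro t ht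
    simp only [T, mem_sigma, mem_univ, true_and, mem_product, mem_range] at ht
    omega
  apply Finset.card_le_card_of_injOn F
  · intro t ht
    have hs := spec t ht
    rw [mem_coe, mem_half]
    refine ⟨_, _, t.1, ?_, ?_, ?_, ?_, rfl⟩
    · rw [Fin.lt_def]; dsimp only; omega
    · rw [Fin.lt_def]; dsimp only; omega
    · dsimp only; omega
    · dsimp only; omega
  · rintro ⟨k, s, r⟩ ht ⟨k', s', r'⟩ ht' he
    have hs := spec _ ht
    have hs' := spec _ ht'
    dsimp only at hs hs'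
    have m1 : ∀ u, u ∈ F ⟨k, s, r⟩ → (u : ℕ) = (k : ℕ) - 2 - 2 * s ∨ (u : ℕ) = (k : ℕ) - 1 - 2 * r ∨
        (u : ℕ) = k := by
      intro u hu
      simp only [F, mem_insert, mem_singleton] at hu
      rcases hu with rfl | rfl | rfl <;> simp
    have m2 : ∀ u, u ∈ F ⟨k', s', r'⟩ → (u : ℕ) = (k' : ℕ) - 2 - 2 * s' ∨
        (u : ℕ) = (k' : ℕ) - 1 - 2 * r' ∨ (u : ℕ) = k' := by
      intro u hu
      simp only [F, mem_insert, mem_singleton] at hu
      rcases hu with rfl | rfl | rfl <;> simp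
    have a1 := m2 k (by rw [← he]; simp [F])
    have a2 := m1 k' (by rw [he]; simp [F])
    have kk : (k : ℕ) = k' := by omega
    have kk' : k = k' := Fin.ext kk
    subst kk'
    have b1 := m2 ⟨(k : ℕ) - 2 - 2 * s, by have := k.2; omega⟩ (by rw [← he]; simp [F])
    have b2 := m2 ⟨(k : ℕ) - 1 - 2 * r, by have := k.2; omega⟩ (by rw [← he]; simp [F])
    dsimp only at b1 b2
    have e1 : s = s' := by omega
    have e2 : r = r' := by omega
    subst e1 e2
    rfl

lemma sum_bound (n : ℕ) :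
    2 * n ^ 3 ≤ 24 * ∑ k ∈ range n, (k / 2) * ((k + 1) / 2) + 3 * n ^ 2 + 5 * n := by
  induction n with
  | zero => simp
  | succ n ih =>
    rw [sum_range_succ]
    have h4 : n ^ 2 ≤ 4 * ((n / 2) * ((n + 1) / 2)) + 1 := by
      rcases Nat.even_or_odd' n with ⟨c, rfl | rfl⟩
      · have e1 : 2 * c / 2 = c := by omega
        have e2 : (2 * c + 1) / 2 = c := by omega
        rw [e1, e2]; nlinarith
      · have e1 : (2 * c + 1) / 2 = c := by omega
        have e2 : (2 * c + 1 + 1) / 2 = c + 1 := by omega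
        rw [e1, e2]; nlinarith
    nlinarith

/-- the half graph has `n ^ 3 / 12 - O(n ^ 2)` edges -/
theorem half_large (n : ℕ) : n ^ 3 ≤ 12 * (half n).card + 4 * n ^ 2 := by
  have h1 := half_card n
  have h2 := sum_bound n
  rcases Nat.eq_zero_or_pos n with rfl | hn
  · simp
  · have : n ≤ n ^ 2 := by nlinarith
    omega

end Pool.Agent.K4H81.Rook
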