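import Pool.Agent.K4H72.Til.Spec

open Set

namespace Pool.Agent.K4H72.Til

theorem E_sub (v w : ℤ × ℤ) : E (v - w) = E v - E w := by
  simp only [E, Prod.fst_sub, Prod.snd_sub]
  push_cast
  ring

theorem E_add (v w : ℤ × ℤ) : E (v + w) = E v + E w := by
  simp only [E, Prod.fst_add, Prod.snd_add]
  push_cast
  ring

theorem E_re (v : ℤ × ℤ) : (E v).re = (v.1 : ℝ) + (v.2 : ℝ) / 2 := by
  simp [E, ζ]
  ring

theorem E_im (v : ℤ × ℤ) : (E v).im = (v.2 : ℝ) * (Real.sqrt 3 / 2) := by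
  simp [E, ζ]

theorem norm_E_sq (v : ℤ × ℤ) : ‖E v‖ ^ 2 = (v.1 : ℝ) ^ 2 + v.1 * v.2 + (v.2 : ℝ) ^ 2 := by
  rw [Complex.sq_norm, Complex.normSq_apply, E_re, E_im]
  have h3 : Real.sqrt 3 * Real.sqrt 3 = 3 := Real.mul_self_sqrt (by norm_num)
  have : (v.2 : ℝ) * (Real.sqrt 3 / 2) * ((v.2 : ℝ) * (Real.sqrt 3 / 2)) =
      (v.2 : ℝ) ^ 2 * (Real.sqrt 3 * Real.sqrt 3) / 4 := by ring
  rw [this, h3]
  ring

/-- norm form values: 0, 1 (exactly on `six`), at least 3 -/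
theorem E_cases (v : ℤ × ℤ) : v = 0 ∨ (v ∈ six ∧ ‖E v‖ = 1) ∨ 3 ≤ ‖E v‖ ^ 2 := by
  obtain ⟨a, b⟩ := v
  by_cases hQ : 3 ≤ a ^ 2 + a * b + b ^ 2
  · right; right
    rw [norm_E_sq]
    exact_mod_cast hQ
  · have hb1 : b ≤ 1 := by nlinarith [sq_nonneg (2 * a + b)]
    have hb2 : -1 ≤ b := by nlinarith [sq_nonneg (2 * a + b)]
    have ha1 : a ≤ 1 := by nlinarith [sq_nonneg (2 * b + a)]
    have ha2 : -1 ≤ a := by nlinarith [sq_nonneg (2 * b + a)]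
    have hn : ∀ v : ℤ × ℤ, v.1 ^ 2 + v.1 * v.2 + v.2 ^ 2 = 1 → ‖E v‖ = 1 := by
      intro v hv
      have h1 : ‖E v‖ ^ 2 = 1 := by
        rw [norm_E_sq]
        exact_mod_cast hv
      have h2 : 0 ≤ ‖E v‖ := norm_nonneg _
      nlinarith
    interval_cases a <;> interval_cases b
    · norm_num at hQ
    · right; left; exact ⟨by decide, hn _ (by norm_num)⟩
    · right; left; exact ⟨by decide, hn _ (by norm_num)⟩
    · right; left; exact ⟨by decide, hn _ (by norm_num)⟩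
    · left; rfl
    · right; left; exact ⟨by decide, hn _ (by norm_num)⟩
    · right; left; exact ⟨by decide, hn _ (by norm_num)⟩
    · right; left; exact ⟨by decide, hn _ (by norm_num)⟩
    · norm_num at hQ

theorem E_finite (r : ℝ) : {v : ℤ × ℤ | ‖E v‖ ≤ r}.Finite := by
  obtain ⟨N, hN⟩ := exists_int_gt (2 * r ^ 2)
  refine (Set.finite_Icc ((-N, -N) : ℤ × ℤ) (N, N)).subset ?_
  rintro ⟨a, b⟩ h
  have h0 : ‖E (a, b)‖ ≤ r := h
  have h1 : ‖E (a, b)‖ ^ 2 ≤ r ^ 2 := pow_le_pow_left₀ (norm_nonneg _) h0 2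
  rw [norm_E_sq] at h1
  simp only at h1
  have hb : (b : ℝ) ^ 2 < N := by nlinarith [sq_nonneg (2 * (a : ℝ) + b), sq_nonneg (b : ℝ)]
  have ha : (a : ℝ) ^ 2 < N := by nlinarith [sq_nonneg (2 * (b : ℝ) + a), sq_nonneg (a : ℝ)]
  have hb' : b ^ 2 < N := by exact_mod_cast hb
  have ha' : a ^ 2 < N := by exact_mod_cast ha
  rw [Set.mem_Icc, Prod.le_def, Prod.le_def]
  refine ⟨⟨?_, ?_⟩, ⟨?_, ?_⟩⟩
  · show -N ≤ a
    nlinarith [sq_nonneg (a + 1), sq_nonneg a]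
  · show -N ≤ b
    nlinarith [sq_nonneg (b + 1), sq_nonneg b]
  · show a ≤ N
    nlinarith [sq_nonneg (a - 1), sq_nonneg a]
  · show b ≤ N
    nlinarith [sq_nonneg (b - 1), sq_nonneg b]

/-- nearest lattice point -/
theorem E_near (z : ℂ) : ∃ v : ℤ × ℤ, ‖z - E v‖ ≤ 1 := by
  have h3 : 0 < Real.sqrt 3 := Real.sqrt_pos.2 (by norm_num)
  have h33 : Real.sqrt 3 * Real.sqrt 3 = 3 := Real.mul_self_sqrt (by norm_num)
  set b : ℤ := round (2 * z.im / Real.sqrt 3) with hb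
  set a : ℤ := round (z.re - (b : ℝ) / 2) with ha
  refine ⟨(a, b), ?_⟩
  have h1 : |z.re - (b : ℝ) / 2 - a| ≤ 1 / 2 := abs_sub_round _
  have h2 : |2 * z.im / Real.sqrt 3 - b| ≤ 1 / 2 := abs_sub_round _
  have h4 : z.im - (b : ℝ) * (Real.sqrt 3 / 2) = (Real.sqrt 3 / 2) * (2 * z.im / Real.sqrt 3 - b) := by
    field_simp
  have h5 : ‖z - E (a, b)‖ ^ 2 ≤ 1 := by
    rw [Complex.sq_norm, Complex.normSq_apply, Complex.sub_re, Complex.sub_im, E_re, E_im]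
    simp only
    rw [h4]
    have e1 : (z.re - ((a : ℝ) + (b : ℝ) / 2)) * (z.re - ((a : ℝ) + (b : ℝ) / 2)) ≤ 1 / 4 := by
      have : z.re - ((a : ℝ) + (b : ℝ) / 2) = z.re - (b : ℝ) / 2 - a := by ring
      rw [this]
      rw [abs_le] at h1
      nlinarith
    have e2 : (2 * z.im / Real.sqrt 3 - b) * (2 * z.im / Real.sqrt 3 - b) ≤ 1 / 4 := by
      rw [abs_le] at h2
      nlinarith
    have e3 : Real.sqrt 3 / 2 * (2 * z.im / Real.sqrt 3 - b) * (Real.sqrt 3 / 2 * (2 * z.im / Real.sqrt 3 - b)) =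
        (Real.sqrt 3 * Real.sqrt 3) / 4 * ((2 * z.im / Real.sqrt 3 - b) * (2 * z.im / Real.sqrt 3 - b)) := by
      ring
    rw [e3, h33]
    linarith
  have h6 : 0 ≤ ‖z - E (a, b)‖ := norm_nonneg _
  nlinarith

end Pool.Agent.K4H72.Til
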