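import Pool.Agent.K4H72.Til.Spec
import Pool.Agent.K4H81.TilT3
import Pool.Agent.K4H43.TilT4

open Set

namespace Pool.Agent.K4H72.Til

/-- the set of the points with an index near to `v` -/
def Nb (P : Set ℂ) (Φ : ℂ → ℤ × ℤ) (B : ℝ) (v : ℤ × ℤ) : Set ℂ := {p | p ∈ P ∧ ‖E (Φ p - v)‖ ≤ B}

theorem deform_of
    (Happrox : ∀ (F : Set ℂ) (_ : F.Finite) (η : ℝ) (_ : 0 < η),
      ∃ M : ℕ, 0 < M ∧ ∃ φ : AddSubgroup.closure F →+ ℤ × ℤ,
        ∀ f (hf : f ∈ F), ‖(M : ℂ) * f - E (φ ⟨f, AddSubgroup.subset_closure hf⟩)‖ ≤ η)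
    (Hchoice : ∃ c : Set ℂ → ℂ, (∀ A : Set ℂ, A.Finite → A.Nonempty → c A ∈ A) ∧
      ∀ (A : Set ℂ) (t : ℂ), A.Finite → A.Nonempty → c ((fun z => z + t) '' A) = c A + t)
    (Hnear : ∀ (P : Set ℂ) (D : ℝ) (_ : 0 < D) (_ : ∀ x : ℂ, ∃ p ∈ P, ‖x - p‖ ≤ D / 4)
      (Φ : ℂ → ℤ × ℤ) (M : ℝ) (_ : 1 ≤ M)
      (_ : ∀ p ∈ P, ∀ p' ∈ P, ‖p - p'‖ ≤ D → ‖(M : ℂ) * (p - p') - E (Φ p - Φ p')‖ ≤ D / 8),
      ∀ v : ℤ × ℤ, ∃ p ∈ P, ‖E (Φ p - v)‖ ≤ M * D)
    (P : Set ℂ) (D : ℝ) (hD : 0 < D) (hdense : ∀ x : ℂ, ∃ p ∈ P, ‖x - p‖ ≤ D / 4)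
    (hfin : {d : ℂ | ∃ p ∈ P, ∃ p' ∈ P, d = p - p' ∧ ‖d‖ ≤ 8 * D}.Finite) :
    ∃ (h : ℝ) (g : ℤ × ℤ → ℂ), Def1 h g ∧ ∀ R2 : ℝ, ∃ R : ℝ, ∀ x y : ℂ,
      (∀ p : ℂ, ‖p‖ < R → (x + p ∈ P ↔ y + p ∈ P)) →
        ∃ τ : ℤ × ℤ, ∀ v, ‖g v - x‖ ≤ R2 → g (v + τ) = g v + (y - x) := by
  classical
  set Δ : Set ℂ := {d : ℂ | ∃ p ∈ P, ∃ p' ∈ P, d = p - p' ∧ ‖d‖ ≤ 8 * D} with hΔ
  obtain ⟨η, hη0, hη1, hη2⟩ : ∃ η : ℝ, 0 < η ∧ η ≤ D / 8 ∧ η * (25 + 8 / D) ≤ 1 / 20 := by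
    have hpos : 0 < 25 + 8 / D := by positivity
    refine ⟨min (D / 8) (1 / (20 * (25 + 8 / D))), by positivity, min_le_left _ _, ?_⟩
    calc min (D / 8) (1 / (20 * (25 + 8 / D))) * (25 + 8 / D)
        ≤ 1 / (20 * (25 + 8 / D)) * (25 + 8 / D) :=
          mul_le_mul_of_nonneg_right (min_le_right _ _) hpos.le
      _ = 1 / 20 := by field_simp
  obtain ⟨M, hM0, φ, hφ⟩ := Happrox Δ hfin η hη0
  have hM1 : (1 : ℝ) ≤ (M : ℝ) := by exact_mod_cast hM0
  obtain ⟨p0, hp0, -⟩ := hdense 0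
  have hG := mem_closure P D hD hdense (AddSubgroup.closure Δ) (by
    intro p hp p' hp' h
    exact AddSubgroup.subset_closure ⟨p, hp, p', hp', rfl, by linarith⟩)
  -- the index of a point
  let Φ : ℂ → ℤ × ℤ := fun p => if hp : p ∈ P then φ ⟨p - p0, hG p hp p0 hp0⟩ else 0
  have hΦdef : ∀ p (hp : p ∈ P), Φ p = φ ⟨p - p0, hG p hp p0 hp0⟩ := by
    intro p hp
    simp only [Φ, dif_pos hp]
  have hΦ : ∀ p (hp : p ∈ P) p' (hp' : p' ∈ P), Φ p - Φ p' = φ ⟨p - p', hG p hp p' hp'⟩ := by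
    intro p hp p' hp'
    rw [hΦdef p hp, hΦdef p' hp', ← map_sub]
    congr 1
    apply Subtype.ext
    simp
  have hstep : ∀ p ∈ P, ∀ p' ∈ P, ‖p - p'‖ ≤ 8 * D → ‖(M : ℂ) * (p - p') - E (Φ p - Φ p')‖ ≤ η := by
    intro p hp p' hp' h
    rw [hΦ p hp p' hp']
    exact hφ (p - p') ⟨p, hp, p', hp', rfl, h⟩
  let u : ℂ → ℂ := fun p => (M : ℂ) * p - E (Φ p)
  have hu : ∀ p p', u p - u p' = (M : ℂ) * (p - p') - E (Φ p - Φ p') := by
    intro p p'
    simp only [u, E_sub]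
    ring
  have hlip := lip P D hD hdense u η hη0.le (by
    intro p hp p' hp' h
    rw [hu]
    exact hstep p hp p' hp' (by linarith))
  have hnear : ∀ v : ℤ × ℤ, ∃ p ∈ P, ‖E (Φ p - v)‖ ≤ M * D :=
    Hnear P D hD hdense Φ M hM1 (by
      intro p hp p' hp' h
      have := hstep p hp p' hp' (by linarith)
      exact_mod_cast this.trans hη1)
  -- distance of two points, by the indices
  have hdist : ∀ p ∈ P, ∀ p' ∈ P, ∀ L : ℝ, ‖E (Φ p - Φ p')‖ ≤ L → ‖p - p'‖ ≤ 2 * L / M + D / 4 := by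
    intro p hp p' hp' L hL
    have h1 := hlip p hp p' hp'
    have h2 : (M : ℂ) * (p - p') = E (Φ p - Φ p') + (u p - u p') := by rw [hu]; ring
    have h3 : (M : ℝ) * ‖p - p'‖ ≤ L + η * (1 + 4 * ‖p - p'‖ / D) := by
      calc (M : ℝ) * ‖p - p'‖ = ‖(M : ℂ) * (p - p')‖ := by rw [norm_mul, Complex.norm_natCast]
        _ = ‖E (Φ p - Φ p') + (u p - u p')‖ := by rw [h2]
        _ ≤ ‖E (Φ p - Φ p')‖ + ‖u p - u p'‖ := norm_add_le _ _
        _ ≤ L + η * (1 + 4 * ‖p - p'‖ / D) := add_le_add hL h1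
    have hx : 0 ≤ ‖p - p'‖ := norm_nonneg _
    have h4 : η * (4 * ‖p - p'‖ / D) ≤ ‖p - p'‖ / 2 := by
      calc η * (4 * ‖p - p'‖ / D) ≤ D / 8 * (4 * ‖p - p'‖ / D) := by
            apply mul_le_mul_of_nonneg_right hη1; positivity
        _ = ‖p - p'‖ / 2 := by field_simp; ring
    have h5 : (M : ℝ) * ‖p - p'‖ ≤ L + η + ‖p - p'‖ / 2 := by nlinarith
    have h6 : ‖p - p'‖ ≤ M * ‖p - p'‖ := le_mul_of_one_le_left hx hM1
    have h7 : (M : ℝ) * ‖p - p'‖ ≤ 2 * L + 2 * η := by linarith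
    have hMpos : (0 : ℝ) < M := by linarith
    have h8 : ‖p - p'‖ ≤ (2 * L + 2 * η) / M := by
      rw [le_div_iff₀ hMpos]; linarith
    have h9 : (2 * L + 2 * η) / M = 2 * L / M + 2 * η / M := by ring
    have h10 : 2 * η / M ≤ 2 * η := div_le_self (by linarith) hM1
    linarith
  have hMpos : (0 : ℝ) < M := by linarith
  let N : ℤ × ℤ → Set ℂ := fun v => Nb P Φ (M * D) v
  have hNmem : ∀ v p, p ∈ N v ↔ p ∈ P ∧ ‖E (Φ p - v)‖ ≤ M * D := fun v p => Iff.rfl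
  have hNne : ∀ v, (N v).Nonempty := by
    intro v
    obtain ⟨p, hp, h⟩ := hnear v
    exact ⟨p, hp, h⟩
  have hNd : ∀ v, ∀ p ∈ N v, ∀ p' ∈ N v, ‖p - p'‖ ≤ 6 * D := by
    intro v p hp p' hp'
    have h1 : ‖E (Φ p - Φ p')‖ ≤ 2 * (M * D) := by
      have e : E (Φ p - Φ p') = E (Φ p - v) - E (Φ p' - v) := by
        simp only [E_sub]; ring
      rw [e]
      calc ‖E (Φ p - v) - E (Φ p' - v)‖ ≤ ‖E (Φ p - v)‖ + ‖E (Φ p' - v)‖ := norm_sub_le _ _
        _ ≤ 2 * (M * D) := by linarith [hp.2, hp'.2]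
    have h2 := hdist p hp.1 p' hp'.1 _ h1
    have h3 : 2 * (2 * (M * D)) / M = 4 * D := by field_simp; ring
    rw [h3] at h2
    linarith
  have hNfin : ∀ v, (N v).Finite := by
    intro v
    obtain ⟨q, hq⟩ := hNne v
    refine ((hfin.image (fun d => d + q))).subset ?_
    intro p hp
    refine ⟨p - q, ⟨p, hp.1, q, hq.1, rfl, ?_⟩, by simp⟩
    have := hNd v p hp q hq
    linarith
  obtain ⟨c, hc1, hc2⟩ := Hchoice
  have huN : ∀ v, (u '' N v).Finite ∧ (u '' N v).Nonempty := fun v =>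
    ⟨(hNfin v).image u, (hNne v).image u⟩
  have hc : ∀ v, ∃ q ∈ N v, u q = c (u '' N v) := by
    intro v
    obtain ⟨q, hq, h⟩ := hc1 _ (huN v).1 (huN v).2
    exact ⟨q, hq, h⟩
  let g : ℤ × ℤ → ℂ := fun v => (E v + c (u '' N v)) / (M : ℂ)
  have hMc : (M : ℂ) ≠ 0 := by exact_mod_cast hMpos.ne'
  have hg : ∀ v, (M : ℂ) * g v = E v + c (u '' N v) := by
    intro v
    simp only [g]
    field_simp
  refine ⟨1 / M, g, ⟨by positivity, ?_⟩, ?_⟩
  · intro v w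
    by_cases hvw : v = w
    · subst hvw
      have e0 : E (v - v) = 0 := by rw [E_sub]; ring
      rw [e0]
      simp
    have hL1 : 1 ≤ ‖E (v - w)‖ := by
      rcases E_cases (v - w) with h | h | h
      · exact absurd (sub_eq_zero.1 h) hvw
      · rw [h.2]
      · nlinarith [norm_nonneg (E (v - w))]
    obtain ⟨q, hq, hqc⟩ := hc v
    obtain ⟨q', hq', hqc'⟩ := hc w
    have h1 : ‖E (Φ q - Φ q')‖ ≤ 2 * (M * D) + ‖E (v - w)‖ := by
      have e : E (Φ q - Φ q') = E (Φ q - v) + E (v - w) - E (Φ q' - w) := by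
        simp only [E_sub]; ring
      rw [e]
      calc ‖E (Φ q - v) + E (v - w) - E (Φ q' - w)‖
          ≤ ‖E (Φ q - v) + E (v - w)‖ + ‖E (Φ q' - w)‖ := norm_sub_le _ _
        _ ≤ ‖E (Φ q - v)‖ + ‖E (v - w)‖ + ‖E (Φ q' - w)‖ := by
            have := norm_add_le (E (Φ q - v)) (E (v - w)); linarith
        _ ≤ _ := by linarith [hq.2, hq'.2]
    have h2 := hdist q hq.1 q' hq'.1 _ h1
    have h3 : 2 * (2 * (M * D) + ‖E (v - w)‖) / M = 4 * D + 2 * ‖E (v - w)‖ / M := by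
      field_simp; ring
    rw [h3] at h2
    have h4 : 2 * ‖E (v - w)‖ / M ≤ 2 * ‖E (v - w)‖ := div_le_self (by positivity) hM1
    have h5 : ‖q - q'‖ ≤ 4 * D + 2 * ‖E (v - w)‖ + D / 4 := by linarith
    have h6 := hlip q hq.1 q' hq'.1
    have h7 : ‖u q - u q'‖ ≤ 1 / 20 * ‖E (v - w)‖ := by
      refine h6.trans ?_
      have h8 : 4 * ‖q - q'‖ / D ≤ 17 + 8 / D * ‖E (v - w)‖ := by
        rw [div_le_iff₀ hD]
        have : (17 + 8 / D * ‖E (v - w)‖) * D = 17 * D + 8 * ‖E (v - w)‖ := by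
          field_simp
        rw [this]
        linarith
      calc η * (1 + 4 * ‖q - q'‖ / D) ≤ η * (18 + 8 / D * ‖E (v - w)‖) := by
            apply mul_le_mul_of_nonneg_left _ hη0.le; linarith
        _ ≤ η * ((25 + 8 / D) * ‖E (v - w)‖) := by
            apply mul_le_mul_of_nonneg_left _ hη0.le
            nlinarith
        _ = (η * (25 + 8 / D)) * ‖E (v - w)‖ := by ring
        _ ≤ 1 / 20 * ‖E (v - w)‖ := mul_le_mul_of_nonneg_right hη2 (norm_nonneg _)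
    have e : g v - g w - ((1 / M : ℝ) : ℂ) * E (v - w) = (u q - u q') / (M : ℂ) := by
      rw [hqc, hqc', E_sub]
      simp only [g]
      push_cast
      field_simp
      ring
    rw [e, norm_div, Complex.norm_natCast, div_le_iff₀ hMpos]
    have h9 : 1 / 20 * (1 / (M : ℝ)) * ‖E (v - w)‖ * M = 1 / 20 * ‖E (v - w)‖ := by
      field_simp
    rw [h9]
    exact h7
  · intro R2
    refine ⟨|R2| + 12 * D, fun x y hxy => ?_⟩
    have hR2 : 0 ≤ |R2| := abs_nonneg _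
    obtain ⟨p1, hp1, hp1x⟩ := hdense x
    have hback : ∀ p : ℂ, ‖p - x‖ < |R2| + 12 * D → (p ∈ P ↔ p - x + y ∈ P) := by
      intro p hp
      have := hxy (p - x) hp
      rwa [show x + (p - x) = p by ring, show y + (p - x) = p - x + y by ring] at this
    have hp1n : ‖p1 - x‖ < |R2| + 12 * D := by
      rw [norm_sub_rev]; linarith
    have hp1' : p1 - x + y ∈ P := (hback p1 hp1n).1 hp1
    have hshift : ∀ p ∈ P, ∀ h : p - x + y ∈ P, Φ (p - x + y) = Φ p + (Φ (p1 - x + y) - Φ p1) := by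
      intro p hp h
      have h1 := hΦ (p - x + y) h (p1 - x + y) hp1'
      have h2 := hΦ p hp p1 hp1
      have h3 : (⟨p - x + y - (p1 - x + y), hG _ h _ hp1'⟩ : AddSubgroup.closure Δ) =
          ⟨p - p1, hG _ hp _ hp1⟩ := Subtype.ext (by ring)
      rw [h3, ← h2] at h1
      have h4 : Φ (p - x + y) = (Φ p - Φ p1) + Φ (p1 - x + y) := by rw [← h1]; abel
      rw [h4]; abel
    refine ⟨Φ (p1 - x + y) - Φ p1, fun v hv => ?_⟩
    set τ := Φ (p1 - x + y) - Φ p1 with hτ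
    obtain ⟨q, hq, hqc⟩ := hc v
    have hvR : ‖g v - x‖ ≤ |R2| := hv.trans (le_abs_self _)
    have hclose : ∀ p ∈ N v, ‖p - x‖ ≤ |R2| + 5 * D := by
      intro p hp
      have h1 : (M : ℂ) * (p - g v) = E (Φ p - v) + (u p - u q) := by
        have : (M : ℂ) * (p - g v) = (M : ℂ) * p - (M : ℂ) * g v := by ring
        rw [this, hg, ← hqc, E_sub]
        simp only [u]
        ring
      have h2 : ‖u p - u q‖ ≤ 25 * η := by
        have h3 := hlip p hp.1 q hq.1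
        have h4 := hNd v p hp q hq
        have h5 : 4 * ‖p - q‖ / D ≤ 24 := by
          rw [div_le_iff₀ hD]; linarith
        calc ‖u p - u q‖ ≤ η * (1 + 4 * ‖p - q‖ / D) := h3
          _ ≤ η * 25 := by apply mul_le_mul_of_nonneg_left _ hη0.le; linarith
          _ = 25 * η := by ring
      have h3 : (M : ℝ) * ‖p - g v‖ ≤ M * D + 25 * η := by
        calc (M : ℝ) * ‖p - g v‖ = ‖(M : ℂ) * (p - g v)‖ := by rw [norm_mul, Complex.norm_natCast]
          _ = ‖E (Φ p - v) + (u p - u q)‖ := by rw [h1]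
          _ ≤ ‖E (Φ p - v)‖ + ‖u p - u q‖ := norm_add_le _ _
          _ ≤ M * D + 25 * η := add_le_add hp.2 h2
      have h4 : ‖p - g v‖ ≤ D + 25 * η := by
        have h5 : 25 * η ≤ M * (25 * η) := le_mul_of_one_le_left (by linarith) hM1
        have h6 : (M : ℝ) * ‖p - g v‖ ≤ M * (D + 25 * η) := by linarith
        exact le_of_mul_le_mul_left h6 hMpos
      have h7 : ‖p - x‖ ≤ ‖p - g v‖ + ‖g v - x‖ := by
        have := norm_add_le (p - g v) (g v - x)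
        rwa [show p - g v + (g v - x) = p - x by ring] at this
      linarith
    have hfwd : ∀ p ∈ N v, p - x + y ∈ N (v + τ) := by
      intro p hp
      have h1 : p - x + y ∈ P := (hback p (by have := hclose p hp; linarith)).1 hp.1
      refine ⟨h1, ?_⟩
      rw [hshift p hp.1 h1]
      have e : Φ p + τ - (v + τ) = Φ p - v := by abel
      rw [e]
      exact hp.2
    have hN : N (v + τ) = (fun z => z - x + y) '' N v := by
      ext p'
      constructor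
      · intro hp'
        have h1 := hNd (v + τ) p' hp' _ (hfwd q hq)
        have h2 := hclose q hq
        have h3 : ‖(p' - y + x) - x‖ < |R2| + 12 * D := by
          have h4 := norm_add_le (p' - (q - x + y)) (q - x)
          rw [show p' - (q - x + y) + (q - x) = p' - y by ring] at h4
          rw [show p' - y + x - x = p' - y by ring]
          linarith
        have h5 := hback (p' - y + x) h3
        rw [show p' - y + x - x + y = p' by ring] at h5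
        have h6 : p' - y + x ∈ P := h5.2 hp'.1
        refine ⟨p' - y + x, ⟨h6, ?_⟩, by ring⟩
        have h7 := hshift (p' - y + x) h6 (by rw [show p' - y + x - x + y = p' by ring]; exact hp'.1)
        rw [show p' - y + x - x + y = p' by ring] at h7
        have e : Φ (p' - y + x) - v = Φ p' - (v + τ) := by rw [h7]; abel
        rw [e]
        exact hp'.2
      · rintro ⟨p, hp, rfl⟩
        exact hfwd p hp
    have hU : u '' N (v + τ) = (fun z => z + ((M : ℂ) * (y - x) - E τ)) '' (u '' N v) := by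
      rw [hN, image_image, image_image]
      refine image_congr fun p hp => ?_
      have h1 : p - x + y ∈ P := (hfwd p hp).1
      show (M : ℂ) * (p - x + y) - E (Φ (p - x + y)) = (M : ℂ) * p - E (Φ p) + ((M : ℂ) * (y - x) - E τ)
      rw [hshift p hp.1 h1, E_add]
      ring
    have h1 : (M : ℂ) * g (v + τ) = (M : ℂ) * (g v + (y - x)) := by
      rw [hg, hU, hc2 _ _ (huN v).1 (huN v).2, mul_add, hg, E_add]
      ring
    exact mul_left_cancel₀ hMc h1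

end Pool.Agent.K4H72.Til
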