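import Pool.Agent.K4H34.XKC2
import Pool.Agent.K4H38.XKG2

open Finset

namespace Pool.Agent.K4H58.XK

namespace S81

theorem arr_union_left {N : ℕ} (Y0 J : Finset (Fin N)) (σ : Equiv.Perm (Fin N)) (A A' B : Finset (Fin N)) :
    (Arr Y0 J σ A B ∧ Arr Y0 J σ A' B) ↔ Arr Y0 J σ (A ∪ A') B := by
  unfold Arr
  rw [union_inter_distrib_right, union_subset_iff, union_sdiff_distrib]
  constructor
  · rintro ⟨⟨a1, a2, a3⟩, b1, b2, b3⟩
    refine ⟨⟨a1, b1⟩, a2, fun a ha b hb => ?_⟩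
    rcases mem_union.1 ha with h | h
    · exact a3 a h b hb
    · exact b3 a h b hb
  · rintro ⟨⟨a1, b1⟩, a2, h⟩
    exact ⟨⟨a1, a2, fun a ha b hb => h a (mem_union_left _ ha) b hb⟩, b1, a2,
      fun a ha b hb => h a (mem_union_right _ ha) b hb⟩

theorem arr_union_right {N : ℕ} (Y0 J : Finset (Fin N)) (σ : Equiv.Perm (Fin N)) (A B B' : Finset (Fin N)) :
    (Arr Y0 J σ A B ∧ Arr Y0 J σ A B') ↔ Arr Y0 J σ A (B ∪ B') := by
  unfold Arr
  rw [disjoint_union_left, union_sdiff_distrib]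
  constructor
  · rintro ⟨⟨a1, a2, a3⟩, b1, b2, b3⟩
    refine ⟨a1, ⟨a2, b2⟩, fun a ha b hb => ?_⟩
    rcases mem_union.1 hb with h | h
    · exact a3 a ha b h
    · exact b3 a ha b h
  · rintro ⟨a1, ⟨a2, b2⟩, h⟩
    exact ⟨⟨a1, a2, fun a ha b hb => h a ha b (mem_union_left _ hb)⟩, a1, b2,
      fun a ha b hb => h a ha b (mem_union_right _ hb)⟩

/-- the exact weight of the event `S → T` -/
theorem W_arr {N k : ℕ} (f : ℕ → ℕ) (Y0 S T : Finset (Fin N)) (hY : Y0.card = k) (hST : Disjoint S T)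
    (hS0 : (S ∩ Y0).Nonempty) (hT0 : (T ∩ Y0).Nonempty) :
    W k Y0 f (fun J σ => Arr Y0 J σ S T) * ((S \ Y0).card + (T \ Y0).card).choose (S \ Y0).card =
      N.factorial * ∑ j ∈ Icc (S ∩ Y0).card (k - (T ∩ Y0).card),
        (k.choose j * f j) * (k - (S ∩ Y0).card - (T ∩ Y0).card).choose (j - (S ∩ Y0).card) := by
  have hsplit := W_splitC2 (k := k) Y0 f (fun J σ => Arr Y0 J σ S T)
    (fun J => S ∩ Y0 ⊆ J ∧ Disjoint (T ∩ Y0) J)
    (fun σ => ∀ a ∈ S \ Y0, ∀ b ∈ T \ Y0, σ a < σ b) (by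
      intro J hJ σ
      have hJY : J ⊆ Y0 := by
        unfold Js at hJ
        exact mem_powerset.1 (mem_filter.1 hJ).1
      have hd : Disjoint T J ↔ Disjoint (T ∩ Y0) J := by
        constructor
        · intro h; exact h.mono_left inter_subset_left
        · intro h
          rw [disjoint_left] at h ⊢
          intro x hx hxJ
          exact h (mem_inter.2 ⟨hx, hJY hxJ⟩) hxJ
      unfold Arr
      rw [hd, and_assoc])
  have hM := perm_count (S \ Y0) (T \ Y0) (hST.mono sdiff_subset sdiff_subset) rfl rfl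
  have hcut := cut_sum Y0 (S ∩ Y0) (T ∩ Y0) hY inter_subset_right inter_subset_right
    (hST.mono inter_subset_left inter_subset_left) hS0 hT0 (fun j => k.choose j * f j)
  rw [hsplit, hcut, ← hM]
  ring

/-- the sum, in a form which the kernel computes fast -/
def tS (f : ℕ → ℕ) (k s t : ℕ) : ℕ → ℕ
  | 0 => 0
  | n + 1 => tS f k s t n + (g2bin k (s + n) * f (s + n)) * g2bin (k - s - t) n

theorem tS_eq (f : ℕ → ℕ) (k s t n : ℕ) :
    tS f k s t n = ∑ j ∈ range n, (k.choose (s + j) * f (s + j)) * (k - s - t).choose j := by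
  induction n with
  | zero => simp [tS]
  | succ n ih => rw [tS, ih, sum_range_succ, g2bin_eq, g2bin_eq]

theorem icc_sum (f : ℕ → ℕ) {k s t : ℕ} (h : s + t ≤ k) :
    ∑ j ∈ Icc s (k - t), (k.choose j * f j) * (k - s - t).choose (j - s) =
      tS f k s t (k - s - t + 1) := by
  rw [tS_eq]
  have : Icc s (k - t) = (range (k - s - t + 1)).image (fun j => s + j) := by
    ext x
    simp only [mem_Icc, mem_image, mem_range]
    constructor
    · rintro ⟨h1, h2⟩
      exact ⟨x - s, by omega, by omega⟩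
    · rintro ⟨y, h1, rfl⟩
      constructor <;> omega
  rw [this, sum_image (by intro a _ b _ h; simpa using h)]
  refine sum_congr rfl (fun j _ => ?_)
  rw [Nat.add_sub_cancel_left]

/-- the weight of a lower cherry -/
theorem WL {N k a b c : ℕ} (f : ℕ → ℕ) (Y0 A B C : Finset (Fin N)) (hY : Y0.card = k)
    (hA : A.card = k) (hB : B.card = k) (hC : C.card = k) (hAB : Disjoint A B) (hAC : Disjoint A C)
    (hBC : Disjoint B C) (ha : (A ∩ Y0).card = a) (hb : (B ∩ Y0).card = b) (hc : (C ∩ Y0).card = c)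
    (ha0 : 1 ≤ a) (hb0 : 1 ≤ b) (hc0 : 1 ≤ c) (hs : a + b + c ≤ k) :
    W k Y0 f (fun J σ => Arr Y0 J σ A C ∧ Arr Y0 J σ B C) * g2bin (3 * k - (a + b) - c) (k - c) =
      N.factorial * tS f k (a + b) c (k - (a + b) - c + 1) := by
  have hU : Disjoint (A ∪ B) C := by rw [disjoint_union_left]; exact ⟨hAC, hBC⟩
  have hc1 : ((A ∪ B) ∩ Y0).card = a + b := by
    rw [union_inter_distrib_right, ← ha, ← hb]
    exact card_union_of_disjoint (hAB.mono inter_subset_left inter_subset_left)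
  have hc2 : ((A ∪ B) \ Y0).card = 2 * k - (a + b) := by
    have := card_sdiff_add_card_inter (A ∪ B) Y0
    rw [card_union_of_disjoint hAB, hA, hB, hc1] at this
    omega
  have hc3 : (C \ Y0).card = k - c := by
    have := card_sdiff_add_card_inter C Y0
    omega
  have h := W_arr f Y0 (A ∪ B) C hY hU (by rw [← card_pos, hc1]; omega) (by rw [← card_pos, hc]; omega)
  have e : (fun J σ => Arr Y0 J σ A C ∧ Arr Y0 J σ B C) = (fun J σ => Arr Y0 J σ (A ∪ B) C) := by
    funext J σ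
    exact propext (arr_union_left Y0 J σ A B C)
  rw [hc1, hc2, hc3, hc, icc_sum f (by omega)] at h
  have e3 : 2 * k - (a + b) + (k - c) = 3 * k - (a + b) - c := by omega
  have e4 : (3 * k - (a + b) - c).choose (2 * k - (a + b)) = (3 * k - (a + b) - c).choose (k - c) := by
    rw [← e3, Nat.choose_symm_add]
  rw [e3, e4] at h
  rw [g2bin_eq, ← h]
  congr 1
  unfold W
  refine sum_congr rfl fun J _ => sum_congr rfl fun σ _ => ?_
  by_cases h5 : Arr Y0 J σ A C ∧ Arr Y0 J σ B C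
  · rw [if_pos h5, if_pos ((arr_union_left Y0 J σ A B C).1 h5)]
  · rw [if_neg h5, if_neg (fun h6 => h5 ((arr_union_left Y0 J σ A B C).2 h6))]

/-- the weight of an upper cherry -/
theorem WU {N k a b c : ℕ} (f : ℕ → ℕ) (Y0 A B C : Finset (Fin N)) (hY : Y0.card = k)
    (hA : A.card = k) (hB : B.card = k) (hC : C.card = k) (hAB : Disjoint A B) (hAC : Disjoint A C)
    (hBC : Disjoint B C) (ha : (A ∩ Y0).card = a) (hb : (B ∩ Y0).card = b) (hc : (C ∩ Y0).card = c)
    (ha0 : 1 ≤ a) (hb0 : 1 ≤ b) (hc0 : 1 ≤ c) (hs : a + b + c ≤ k) :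
    W k Y0 f (fun J σ => Arr Y0 J σ C A ∧ Arr Y0 J σ C B) * g2bin (3 * k - c - (a + b)) (k - c) =
      N.factorial * tS f k c (a + b) (k - c - (a + b) + 1) := by
  have hU : Disjoint C (A ∪ B) := by rw [disjoint_union_right]; exact ⟨hAC.symm, hBC.symm⟩
  have hc1 : ((A ∪ B) ∩ Y0).card = a + b := by
    rw [union_inter_distrib_right, ← ha, ← hb]
    exact card_union_of_disjoint (hAB.mono inter_subset_left inter_subset_left)
  have hc2 : ((A ∪ B) \ Y0).card = 2 * k - (a + b) := by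
    have := card_sdiff_add_card_inter (A ∪ B) Y0
    rw [card_union_of_disjoint hAB, hA, hB, hc1] at this
    omega
  have hc3 : (C \ Y0).card = k - c := by
    have := card_sdiff_add_card_inter C Y0
    omega
  have h := W_arr f Y0 C (A ∪ B) hY hU (by rw [← card_pos, hc]; omega) (by rw [← card_pos, hc1]; omega)
  rw [hc1, hc2, hc3, hc, icc_sum f (by omega)] at h
  have e3 : k - c + (2 * k - (a + b)) = 3 * k - c - (a + b) := by omega
  rw [e3] at h
  rw [g2bin_eq, ← h]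
  congr 1
  unfold W
  refine sum_congr rfl fun J _ => sum_congr rfl fun σ _ => ?_
  by_cases h5 : Arr Y0 J σ C A ∧ Arr Y0 J σ C B
  · rw [if_pos h5, if_pos ((arr_union_right Y0 J σ C A B).1 h5)]
  · rw [if_neg h5, if_neg (fun h6 => h5 ((arr_union_right Y0 J σ C A B).2 h6))]

theorem combine {W1 W2 W3 D1 D2 D3 S1 S2 S3 m M : ℕ} (h1 : W1 * D1 = M * S1) (h2 : W2 * D2 = M * S2)
    (h3 : W3 * D3 = M * S3) (hD : 0 < D1 * D2 * D3)
    (h : m * (S1 * (D2 * D3) + S2 * (D1 * D3) + S3 * (D1 * D2)) ≤ 6 * (D1 * D2 * D3)) :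
    m * (W1 + W2 + W3) ≤ 6 * M := by
  refine Nat.le_of_mul_le_mul_left ?_ hD
  calc D1 * D2 * D3 * (m * (W1 + W2 + W3))
      = m * ((W1 * D1) * (D2 * D3) + (W2 * D2) * (D1 * D3) + (W3 * D3) * (D1 * D2)) := by ring
    _ = M * (m * (S1 * (D2 * D3) + S2 * (D1 * D3) + S3 * (D1 * D2))) := by rw [h1, h2, h3]; ring
    _ ≤ M * (6 * (D1 * D2 * D3)) := Nat.mul_le_mul_left _ h
    _ = D1 * D2 * D3 * (6 * M) := by ring

/-- the numerical test for a lower triple -/
def chkL (f : ℕ → ℕ) (k a b c : ℕ) : Bool :=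
  decide ((k + 3 - a - b - c) *
    (tS f k (a + b) c (k - (a + b) - c + 1) *
        (g2bin (3 * k - (b + c) - a) (k - a) * g2bin (3 * k - (c + a) - b) (k - b)) +
      tS f k (b + c) a (k - (b + c) - a + 1) *
        (g2bin (3 * k - (a + b) - c) (k - c) * g2bin (3 * k - (c + a) - b) (k - b)) +
      tS f k (c + a) b (k - (c + a) - b + 1) *
        (g2bin (3 * k - (a + b) - c) (k - c) * g2bin (3 * k - (b + c) - a) (k - a))) ≤
    6 * (g2bin (3 * k - (a + b) - c) (k - c) * g2bin (3 * k - (b + c) - a) (k - a) *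
      g2bin (3 * k - (c + a) - b) (k - b)))

/-- the numerical test for an upper triple -/
def chkU (f : ℕ → ℕ) (k a b c : ℕ) : Bool :=
  decide ((k + 3 - a - b - c) *
    (tS f k c (a + b) (k - c - (a + b) + 1) *
        (g2bin (3 * k - a - (b + c)) (k - a) * g2bin (3 * k - b - (c + a)) (k - b)) +
      tS f k a (b + c) (k - a - (b + c) + 1) *
        (g2bin (3 * k - c - (a + b)) (k - c) * g2bin (3 * k - b - (c + a)) (k - b)) +
      tS f k b (c + a) (k - b - (c + a) + 1) *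
        (g2bin (3 * k - c - (a + b)) (k - c) * g2bin (3 * k - a - (b + c)) (k - a))) ≤
    6 * (g2bin (3 * k - c - (a + b)) (k - c) * g2bin (3 * k - a - (b + c)) (k - a) *
      g2bin (3 * k - b - (c + a)) (k - b)))

/-- all the tests for one `k` -/
def chkAll (g : ℕ → ℕ → ℕ → Bool) (k : ℕ) : Bool :=
  (List.range (k + 1)).all fun a => (List.range (k + 1)).all fun b => (List.range (k + 1)).all fun c =>
    decide (a < 1) || decide (b < 1) || decide (c < 1) || decide (k < a + b + c) || g a b c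

theorem chkAll_spec {g : ℕ → ℕ → ℕ → Bool} {k : ℕ} (h : chkAll g k = true) {a b c : ℕ} (ha : 1 ≤ a)
    (hb : 1 ≤ b) (hc : 1 ≤ c) (hs : a + b + c ≤ k) : g a b c = true := by
  unfold chkAll at h
  rw [List.all_eq_true] at h
  have h2 := h a (by rw [List.mem_range]; omega)
  rw [List.all_eq_true] at h2
  have h3 := h2 b (by rw [List.mem_range]; omega)
  rw [List.all_eq_true] at h3
  have h4 := h3 c (by rw [List.mem_range]; omega)
  have e1 : decide (a < 1) = false := decide_eq_false (by omega)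
  have e2 : decide (b < 1) = false := decide_eq_false (by omega)
  have e3 : decide (c < 1) = false := decide_eq_false (by omega)
  have e4 : decide (k < a + b + c) = false := decide_eq_false (by omega)
  rw [e1, e2, e3, e4] at h4
  simpa using h4

/-- the share of the mirrored inequality at a cut with `j` elements -/
def qw (k j : ℕ) : ℕ :=
  if j = 1 then 2 else if j + 1 = k then 0 else if k = 8 then (if j ≤ 3 then 0 else 2) else 1

/-- the weights of the lower cherries -/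
def uLw (k j : ℕ) : ℕ := 2 + (k - 1) * qw k j

/-- the weights of the upper cherries -/
def uUw (k j : ℕ) : ℕ := 2 + (k - 1) * (2 - qw k j)

theorem c4 : chkAll (chkL (uLw 4) 4) 4 = true := by decide +kernel
theorem c5 : chkAll (chkL (uLw 5) 5) 5 = true := by decide +kernel
theorem c6 : chkAll (chkL (uLw 6) 6) 6 = true := by decide +kernel
theorem c7 : chkAll (chkL (uLw 7) 7) 7 = true := by decide +kernel
theorem c8 : chkAll (chkL (uLw 8) 8) 8 = true := by decide +kernel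
theorem d4 : chkAll (chkU (uUw 4) 4) 4 = true := by decide +kernel
theorem d5 : chkAll (chkU (uUw 5) 5) 5 = true := by decide +kernel
theorem d6 : chkAll (chkU (uUw 6) 6) 6 = true := by decide +kernel
theorem d7 : chkAll (chkU (uUw 7) 7) 7 = true := by decide +kernel
theorem d8 : chkAll (chkU (uUw 8) 8) 8 = true := by decide +kernel

theorem cAll {k : ℕ} (hk : 4 ≤ k ∧ k ≤ 8) : chkAll (chkL (uLw k) k) k = true := by
  obtain ⟨h1, h2⟩ := hk
  have : k = 4 ∨ k = 5 ∨ k = 6 ∨ k = 7 ∨ k = 8 := by omega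
  rcases this with rfl | rfl | rfl | rfl | rfl
  exacts [c4, c5, c6, c7, c8]

theorem dAll {k : ℕ} (hk : 4 ≤ k ∧ k ≤ 8) : chkAll (chkU (uUw k) k) k = true := by
  obtain ⟨h1, h2⟩ := hk
  have : k = 4 ∨ k = 5 ∨ k = 6 ∨ k = 7 ∨ k = 8 := by omega
  rcases this with rfl | rfl | rfl | rfl | rfl
  exacts [d4, d5, d6, d7, d8]

theorem bin_pos {n k : ℕ} (h : k ≤ n) : 0 < g2bin n k := by
  rw [g2bin_eq]; exact Nat.choose_pos h

end S81

theorem hw_small (k : ℕ) : ∀ j, 1 ≤ j → j < k →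
    ∃ p q, p + q = 2 ∧ (j = 1 ∨ 2 + (k - 1) * q ≤ S81.uLw k j) ∧
      (j + 1 = k ∨ 2 + (k - 1) * p ≤ S81.uUw k j) := by
  intro j h1 h2
  refine ⟨2 - S81.qw k j, S81.qw k j, ?_, Or.inr le_rfl, Or.inr le_rfl⟩
  unfold S81.qw
  split_ifs <;> rfl

theorem hL_small (k : ℕ) (hk : 4 ≤ k ∧ k ≤ 8) {N : ℕ} (Y0 : Finset (Fin N)) (hY : Y0.card = k) :
    ∀ (A B C : Finset (Fin N)) (m : ℕ), A.card = k → B.card = k → C.card = k → Disjoint A B →
      Disjoint A C → Disjoint B C → (A ∩ Y0).Nonempty → (B ∩ Y0).Nonempty → (C ∩ Y0).Nonempty →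
      3 ≤ m → m + (A ∩ Y0).card + (B ∩ Y0).card + (C ∩ Y0).card ≤ k + 3 →
      m * (W k Y0 (S81.uLw k) (fun J σ => Arr Y0 J σ A C ∧ Arr Y0 J σ B C) +
        W k Y0 (S81.uLw k) (fun J σ => Arr Y0 J σ B A ∧ Arr Y0 J σ C A) +
        W k Y0 (S81.uLw k) (fun J σ => Arr Y0 J σ C B ∧ Arr Y0 J σ A B)) ≤ 6 * N.factorial := by
  intro A B C m hA hB hC hAB hAC hBC hA0 hB0 hC0 hm hs
  have ha0 := hA0.card_pos
  have hb0 := hB0.card_pos
  have hc0 := hC0.card_pos
  have h1 := S81.WL (S81.uLw k) Y0 A B C hY hA hB hC hAB hAC hBC rfl rfl rfl ha0 hb0 hc0 (by omega)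
  have h2 := S81.WL (S81.uLw k) Y0 B C A hY hB hC hA hBC hAB.symm hAC.symm rfl rfl rfl hb0 hc0 ha0
    (by omega)
  have h3 := S81.WL (S81.uLw k) Y0 C A B hY hC hA hB hAC.symm hBC.symm hAB rfl rfl rfl hc0 ha0 hb0
    (by omega)
  have hsum : (A ∩ Y0).card + (B ∩ Y0).card + (C ∩ Y0).card ≤ k := by omega
  have hck := S81.chkAll_spec (S81.cAll hk) ha0 hb0 hc0 hsum
  unfold S81.chkL at hck
  rw [decide_eq_true_eq] at hck
  refine S81.combine h1 h2 h3 ?_ ((Nat.mul_le_mul_right _ (by omega)).trans hck)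
  have p1 := S81.bin_pos (n := 3 * k - ((A ∩ Y0).card + (B ∩ Y0).card) - (C ∩ Y0).card)
    (k := k - (C ∩ Y0).card) (by omega)
  have p2 := S81.bin_pos (n := 3 * k - ((B ∩ Y0).card + (C ∩ Y0).card) - (A ∩ Y0).card)
    (k := k - (A ∩ Y0).card) (by omega)
  have p3 := S81.bin_pos (n := 3 * k - ((C ∩ Y0).card + (A ∩ Y0).card) - (B ∩ Y0).card)
    (k := k - (B ∩ Y0).card) (by omega)
  exact Nat.mul_pos (Nat.mul_pos p1 p2) p3

theorem hU_small (k : ℕ) (hk : 4 ≤ k ∧ k ≤ 8) {N : ℕ} (Y0 : Finset (Fin N)) (hY : Y0.card = k) :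
    ∀ (A B C : Finset (Fin N)) (m : ℕ), A.card = k → B.card = k → C.card = k → Disjoint A B →
      Disjoint A C → Disjoint B C → (A ∩ Y0).Nonempty → (B ∩ Y0).Nonempty → (C ∩ Y0).Nonempty →
      3 ≤ m → m + (A ∩ Y0).card + (B ∩ Y0).card + (C ∩ Y0).card ≤ k + 3 →
      m * (W k Y0 (S81.uUw k) (fun J σ => Arr Y0 J σ C A ∧ Arr Y0 J σ C B) +
        W k Y0 (S81.uUw k) (fun J σ => Arr Y0 J σ A B ∧ Arr Y0 J σ A C) +
        W k Y0 (S81.uUw k) (fun J σ => Arr Y0 J σ B C ∧ Arr Y0 J σ B A)) ≤ 6 * N.factorial := by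
  intro A B C m hA hB hC hAB hAC hBC hA0 hB0 hC0 hm hs
  have ha0 := hA0.card_pos
  have hb0 := hB0.card_pos
  have hc0 := hC0.card_pos
  have h1 := S81.WU (S81.uUw k) Y0 A B C hY hA hB hC hAB hAC hBC rfl rfl rfl ha0 hb0 hc0 (by omega)
  have h2 := S81.WU (S81.uUw k) Y0 B C A hY hB hC hA hBC hAB.symm hAC.symm rfl rfl rfl hb0 hc0 ha0
    (by omega)
  have h3 := S81.WU (S81.uUw k) Y0 C A B hY hC hA hB hAC.symm hBC.symm hAB rfl rfl rfl hc0 ha0 hb0
    (by omega)
  have hsum : (A ∩ Y0).card + (B ∩ Y0).card + (C ∩ Y0).card ≤ k := by omega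
  have hck := S81.chkAll_spec (S81.dAll hk) ha0 hb0 hc0 hsum
  unfold S81.chkU at hck
  rw [decide_eq_true_eq] at hck
  refine S81.combine h1 h2 h3 ?_ ((Nat.mul_le_mul_right _ (by omega)).trans hck)
  have p1 := S81.bin_pos (n := 3 * k - (C ∩ Y0).card - ((A ∩ Y0).card + (B ∩ Y0).card))
    (k := k - (C ∩ Y0).card) (by omega)
  have p2 := S81.bin_pos (n := 3 * k - (A ∩ Y0).card - ((B ∩ Y0).card + (C ∩ Y0).card))
    (k := k - (A ∩ Y0).card) (by omega)
  have p3 := S81.bin_pos (n := 3 * k - (B ∩ Y0).card - ((C ∩ Y0).card + (A ∩ Y0).card))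
    (k := k - (B ∩ Y0).card) (by omega)
  exact Nat.mul_pos (Nat.mul_pos p1 p2) p3

end Pool.Agent.K4H58.XK
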